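import Pool.Agent.Helper48.GC8.Weyl

/-!
# The induction: stable subspaces of large slope are spanned by insertions
-/

set_option autoImplicit false

namespace Pool.Agent.Helper48.GC8

open Function Polynomial

section General

variable {E F : Type*} [AddCommGroup E] [Module ℂ E] [AddCommGroup F] [Module ℂ F]

lemma aeval_semiconj (f : E →ₗ[ℂ] F) (a : Module.End ℂ E) (b : Module.End ℂ F)
    (h : ∀ v, f (a v) = b (f v)) (Q : ℂ[X]) (v : E) :
    f (aeval a Q v) = aeval b Q (f v) := by
  induction Q using Polynomial.induction_on' with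
  | add p q hp hq => simp only [map_add, LinearMap.add_apply, hp, hq]
  | monomial n c =>
    have h1 : ∀ n v, f ((a ^ n) v) = (b ^ n) (f v) := by
      intro n
      induction n with
      | zero => intro v; simp
      | succ n ih => intro v; rw [pow_succ, pow_succ, Module.End.mul_apply, ih, h,
          Module.End.mul_apply]
    simp only [aeval_monomial, Module.algebraMap_end_eq_smul_id, Module.End.mul_apply,
      LinearMap.smul_apply, LinearMap.id_apply, map_smul, h1]

lemma aeval_mem (a : Module.End ℂ E) (N : Submodule ℂ E) (h : ∀ v ∈ N, a v ∈ N) (Q : ℂ[X])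
    {v : E} (hv : v ∈ N) : aeval a Q v ∈ N := by
  induction Q using Polynomial.induction_on' with
  | add p q hp hq =>
    simp only [map_add, LinearMap.add_apply]
    exact N.add_mem hp hq
  | monomial n c =>
    have h1 : ∀ n, (a ^ n) v ∈ N := by
      intro n
      induction n with
      | zero => simpa using hv
      | succ n ih => rw [pow_succ', Module.End.mul_apply]; exact h _ ih
    simp only [aeval_monomial, Module.algebraMap_end_eq_smul_id, Module.End.mul_apply,
      LinearMap.smul_apply, LinearMap.id_apply]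
    exact N.smul_mem _ (h1 n)

lemma aeval_smul_end (c : ℂ) (b : Module.End ℂ F) (Q : ℂ[X]) :
    aeval (c • b) Q = aeval b (Q.comp (C c * X)) := by
  rw [aeval_comp]
  congr 1
  simp [Algebra.smul_def]

end General

section Sim

variable {g : ℕ} {κ : Type} [DecidableEq κ]

/-- The projection to the index. -/
def pr (r : L2 g) : Fin g := Sum.elim id id r

/-- `X` is a symplectic similitude with multiplier `m` which respects the blocks. -/
structure Sim (col : Fin g → κ) (m : ℂ) (X : Matrix (L2 g) (L2 g) ℂ) : Prop where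
  form : X.transpose * Matrix.J (Fin g) ℂ * X = m • Matrix.J (Fin g) ℂ
  blk : ∀ r s, col (pr r) ≠ col (pr s) → X r s = 0

/-- The projection to the block with color `c`. -/
def PB (col : Fin g → κ) (c : κ) : Matrix (L2 g) (L2 g) ℂ :=
  Matrix.diagonal fun r => if col (pr r) = c then 1 else 0

lemma JB_eq (col : Fin g → κ) (c : κ) : JB col c = Matrix.J (Fin g) ℂ * PB col c := by
  ext r s
  rw [PB, Matrix.mul_diagonal]
  rcases r with i | i <;> rcases s with j | j <;>
    simp only [JB, Matrix.J, Matrix.fromBlocks_apply₁₁, Matrix.fromBlocks_apply₁₂,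
      Matrix.fromBlocks_apply₂₁, Matrix.fromBlocks_apply₂₂, Matrix.zero_apply, zero_mul,
      Matrix.neg_apply, Matrix.diagonal_apply, Matrix.one_apply, pr, Sum.elim_inl, Sum.elim_inr,
      id]
  · by_cases h : i = j
    · subst h; by_cases hc : col i = c <;> simp [hc]
    · simp [h]
  · by_cases h : i = j
    · subst h; by_cases hc : col i = c <;> simp [hc]
    · simp [h]

lemma JB_eq' (col : Fin g → κ) (c : κ) : JB col c = PB col c * Matrix.J (Fin g) ℂ := by
  ext r s
  rw [PB, Matrix.diagonal_mul]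
  rcases r with i | i <;> rcases s with j | j <;>
    simp only [JB, Matrix.J, Matrix.fromBlocks_apply₁₁, Matrix.fromBlocks_apply₁₂,
      Matrix.fromBlocks_apply₂₁, Matrix.fromBlocks_apply₂₂, Matrix.zero_apply, mul_zero,
      Matrix.neg_apply, Matrix.diagonal_apply, Matrix.one_apply, pr, Sum.elim_inl, Sum.elim_inr,
      id]
  · by_cases h : i = j
    · subst h; by_cases hc : col i = c <;> simp [hc]
    · simp [h]
  · by_cases h : i = j
    · subst h; by_cases hc : col i = c <;> simp [hc]
    · simp [h]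

lemma Sim.comm {col : Fin g → κ} {m : ℂ} {X : Matrix (L2 g) (L2 g) ℂ} (h : Sim col m X) (c : κ) :
    X * PB col c = PB col c * X := by
  ext r s
  rw [PB, Matrix.mul_diagonal, Matrix.diagonal_mul]
  by_cases hrs : col (pr r) = col (pr s)
  · rw [hrs]; ring
  · rw [h.blk r s hrs]; ring

omit [DecidableEq κ] in
lemma Sim.symm {col : Fin g → κ} {c : ℂ} (hc : c ≠ 0) {X : Matrix (L2 g) (L2 g) ℂ}
    (h' : Sim col c X) :
    X * Matrix.J (Fin g) ℂ * X.transpose = c • Matrix.J (Fin g) ℂ := by
  have h := h'.form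
  have h1 : (-(c⁻¹ • (Matrix.J (Fin g) ℂ * X.transpose * Matrix.J (Fin g) ℂ))) * X = 1 := by
    rw [Matrix.neg_mul, Matrix.smul_mul, Matrix.mul_assoc, Matrix.mul_assoc,
      ← Matrix.mul_assoc X.transpose, h, Matrix.mul_smul, Matrix.J_squared, smul_smul,
      inv_mul_cancel₀ hc, one_smul, neg_neg]
  rw [mul_eq_one_comm] at h1
  have h2 : X * Matrix.J (Fin g) ℂ * X.transpose * Matrix.J (Fin g) ℂ = -(c • 1) := by
    have h3 := congrArg (fun Z => -(c • Z)) h1
    simp only [Matrix.mul_neg, Matrix.mul_smul, smul_neg, smul_smul, mul_inv_cancel₀ hc,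
      one_smul, neg_neg] at h3
    rw [← h3]
    simp only [Matrix.mul_assoc]
  have h3 := congrArg (fun Z => Z * Matrix.J (Fin g) ℂ) h2
  simp only [Matrix.mul_assoc, Matrix.J_squared, Matrix.mul_neg, Matrix.mul_one, Matrix.neg_mul,
    Matrix.smul_mul, Matrix.one_mul, neg_inj] at h3
  rw [Matrix.mul_assoc]
  exact h3

lemma Sim.jb {col : Fin g → κ} {m : ℂ} {X : Matrix (L2 g) (L2 g) ℂ} (h : Sim col m X) (c : κ) :
    X.transpose * JB col c * X = m • JB col c := by
  rw [JB_eq, ← Matrix.mul_assoc, Matrix.mul_assoc _ (PB col c), ← h.comm, ← Matrix.mul_assoc,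
    h.form, Matrix.smul_mul]

lemma Sim.jb' {col : Fin g → κ} {m : ℂ} (hm : m ≠ 0) {X : Matrix (L2 g) (L2 g) ℂ}
    (h : Sim col m X) (c : κ) :
    X * JB col c * X.transpose = m • JB col c := by
  rw [JB_eq', ← Matrix.mul_assoc, h.comm, Matrix.mul_assoc, Matrix.mul_assoc,
    ← Matrix.mul_assoc X, h.symm hm, Matrix.mul_smul]

lemma J_star (r s : L2 g) : star (Matrix.J (Fin g) ℂ r s) = Matrix.J (Fin g) ℂ r s := by
  rcases r with i | i <;> rcases s with j | j <;> simp [Matrix.J, Matrix.one_apply]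

lemma JB_star (col : Fin g → κ) (c : κ) (r s : L2 g) : star (JB col c r s) = JB col c r s := by
  rcases r with i | i <;> rcases s with j | j <;>
    simp only [JB, Matrix.fromBlocks_apply₁₁, Matrix.fromBlocks_apply₁₂,
      Matrix.fromBlocks_apply₂₁, Matrix.fromBlocks_apply₂₂, Matrix.zero_apply, star_zero,
      Matrix.neg_apply, Matrix.diagonal_apply] <;> split_ifs <;> simp

omit [DecidableEq κ] in
lemma Sim.conjTranspose {col : Fin g → κ} {c : ℂ} (hc : c ≠ 0) {X : Matrix (L2 g) (L2 g) ℂ}
    (h : Sim col c X) : Sim col (star c) X.conjTranspose := by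
  have h1 := h.symm hc
  refine ⟨?_, ?_⟩
  · have h2 := congrArg (fun Z : Matrix (L2 g) (L2 g) ℂ => Z.map star) h1
    ext r s
    have h3 := congrFun (congrFun h2 r) s
    simp only [Matrix.map_apply, Matrix.smul_apply, smul_eq_mul, star_mul', J_star] at h3
    rw [Matrix.smul_apply, smul_eq_mul, ← h3]
    simp only [Matrix.mul_apply, Matrix.transpose_apply, Matrix.conjTranspose_apply, star_sum,
      star_mul', J_star]
  · intro r s hrs
    rw [Matrix.conjTranspose_apply, h.blk s r (Ne.symm hrs), star_zero]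

end Sim

section Claim

variable {ι : Type} [Fintype ι] [DecidableEq ι] {g : ℕ} {κ : Type} [Fintype κ] [DecidableEq κ]

/-- Stability under all symplectic similitudes which respect the blocks. -/
def Stab (col : Fin g → κ) (R : Finset ι) (U : Submodule ℂ (Ten ι (L2 g))) : Prop :=
  ∀ (c : ℂ) (X : Matrix (L2 g) (L2 g) ℂ), c ≠ 0 → Sim col c X → ∀ u ∈ U, rho R X u ∈ U

/-- The eigenvalues of all Frobenii on `U` are `q ^ t` times algebraic integers. -/
def Good (𝓕 : Set (ℕ × Matrix (L2 g) (L2 g) ℂ)) (R : Finset ι) (t : ℕ)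
    (U : Submodule ℂ (Ten ι (L2 g))) : Prop :=
  ∀ z ∈ 𝓕, ∃ Q : ℂ[X], (∀ β, Q.IsRoot β → IsIntegral ℤ (β / (z.1 : ℂ) ^ t)) ∧
    ∀ u ∈ U, aeval (rho R z.2) Q u = 0

omit [Fintype κ] in
lemma Nv_stab (col : Fin g → κ) (ν : ℕ) (R : Finset ι) :
    Stab col R (Nv (JB col) ν R) := by
  intro c X hc hX u hu
  exact rho_Nv _ X (fun a => hX.jb' hc a) ν R hu

omit [Fintype κ] in
omit [DecidableEq κ] in
lemma perp_stab {col : Fin g → κ} {R : Finset ι} {N : Submodule ℂ (Ten ι (L2 g))}
    (h : Stab col R N) : Stab col R (perp N) := by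
  intro c X hc hX v hv n hn
  rw [herm_rho]
  exact hv _ (h (star c) X.conjTranspose (by simpa using hc) (hX.conjTranspose hc) n hn)

omit [Fintype κ] [DecidableEq κ] in
lemma sup_stab {col : Fin g → κ} {R : Finset ι} {U N : Submodule ℂ (Ten ι (L2 g))}
    (h1 : Stab col R U) (h2 : Stab col R N) : Stab col R (U ⊔ N) := by
  intro c X hc hX v hv
  obtain ⟨u, hu, n, hn, rfl⟩ := Submodule.mem_sup.1 hv
  rw [map_add]
  exact Submodule.add_mem_sup (h1 c X hc hX u hu) (h2 c X hc hX n hn)

omit [Fintype κ] in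
lemma claim (col : Fin g → κ) (𝓕 : Set (ℕ × Matrix (L2 g) (L2 g) ℂ))
    (h𝓕 : ∀ z ∈ 𝓕, (z.1 : ℂ) ≠ 0 ∧ Sim col z.1 z.2)
    (w : ℕ)
    (HT : ∀ (t : ℕ) (R : Finset ι) (U : Submodule ℂ (Ten ι (L2 g))), 1 ≤ t →
      R.card = w + 2 * t → Stab col R U → Good 𝓕 R t U →
      (∀ u ∈ U, ∀ c, ∀ a ∈ R, ∀ b ∈ R, a ≠ b → con (JB col c) a b u = 0) →
      ∀ u ∈ U, u = 0)
    (ν : ℕ) : ∀ (R : Finset ι) (U : Submodule ℂ (Ten ι (L2 g))), R.card = w + 2 * ν →
      U ≤ dep R → Stab col R U → Good 𝓕 R ν U → U ≤ Nv (JB col) ν R := by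
  induction ν with
  | zero => intro R U _ h _ _; exact h
  | succ ν ih =>
    intro R U hR hdep hst hgood
    set N := Nv (JB col) (ν + 1) R with hN
    have hNst : Stab col R N := Nv_stab _ _ _
    have hNd : N ≤ dep R := Nv_le_dep _ _ _
    set U1 := (U ⊔ N) ⊓ perp N with hU1
    have hU1st : Stab col R U1 := by
      intro c X hc hX v hv
      exact ⟨sup_stab hst hNst c X hc hX v hv.1, perp_stab hNst c X hc hX v hv.2⟩
    have hU1dep : U1 ≤ dep R := fun v hv => (sup_le hdep hNd) hv.1
    have hU1good : Good 𝓕 R (ν + 1) U1 := by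
      intro z hz
      obtain ⟨Q, hQ1, hQ2⟩ := hgood z hz
      refine ⟨Q, hQ1, ?_⟩
      intro v hv
      obtain ⟨hv1, hv2⟩ := hv
      have h1 : aeval (rho R z.2) Q v ∈ perp N :=
        aeval_mem _ _ (fun v hv => perp_stab hNst _ _ (h𝓕 z hz).1 (h𝓕 z hz).2 v hv) Q hv2
      obtain ⟨u, hu, n, hn, rfl⟩ := Submodule.mem_sup.1 hv1
      have h2 : aeval (rho R z.2) Q (u + n) ∈ N := by
        rw [map_add, hQ2 u hu, zero_add]
        exact aeval_mem _ _ (fun v hv => hNst _ _ (h𝓕 z hz).1 (h𝓕 z hz).2 v hv) Q hn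
      exact eq_zero_of_mem_perp h2 h1
    have hcon : ∀ u ∈ U1, ∀ c, ∀ a ∈ R, ∀ b ∈ R, a ≠ b → con (JB col c) a b u = 0 := by
      intro u hu d a ha b hb hab
      have hsub : ({a, b} : Finset ι) ⊆ R := by
        intro x hx
        simp only [Finset.mem_insert, Finset.mem_singleton] at hx
        rcases hx with rfl | rfl
        · exact ha
        · exact hb
      have hcard : (R \ {a, b}).card = w + 2 * ν := by
        have h1 := Finset.card_sdiff_add_card_eq_card hsub
        rw [Finset.card_pair hab, hR] at h1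
        omega
      have h1 := ih (R \ {a, b}) (U1.map (con (JB col d) a b)) hcard (by
          rintro _ ⟨v, hv, rfl⟩
          exact con_dep _ hab (hU1dep hv)) (by
          rintro c X hc hX _ ⟨v, hv, rfl⟩
          refine ⟨c⁻¹ • rho R X v, U1.smul_mem _ (hU1st c X hc hX v hv), ?_⟩
          rw [map_smul, con_rho R _ X (hX.jb d) ha hb hab, smul_smul, inv_mul_cancel₀ hc,
            one_smul]) (by
          intro z hz
          obtain ⟨Q, hQ1, hQ2⟩ := hU1good z hz
          refine ⟨Q.comp (C (z.1 : ℂ) * X), ?_, ?_⟩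
          · intro β hβ
            have h2 : Q.IsRoot ((z.1 : ℂ) * β) := by
              simpa [Polynomial.IsRoot, eval_comp] using hβ
            have h3 := hQ1 _ h2
            have h4 : (z.1 : ℂ) * β / (z.1 : ℂ) ^ (ν + 1) = β / (z.1 : ℂ) ^ ν := by
              have := (h𝓕 z hz).1
              rw [pow_succ]
              field_simp
            rwa [h4] at h3
          · rintro _ ⟨v, hv, rfl⟩
            rw [← aeval_smul_end]
            rw [← aeval_semiconj (con (JB col d) a b) (rho R z.2) _ (fun v => by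
              rw [con_rho R _ _ ((h𝓕 z hz).2.jb d) ha hb hab]; rfl)]
            rw [hQ2 v hv, map_zero])
      have h2 : con (JB col d) a b u ∈ Nv (JB col) ν (R \ {a, b}) :=
        h1 ⟨u, hu, rfl⟩
      refine eq_zero_of_mem_perp h2 ?_
      intro n hn
      have hnd := Nv_le_dep _ _ _ hn
      rw [herm_con _ (JB_star col d) hab (fun x r => hnd a (by simp) x r)
        (fun x r => hnd b (by simp) x r)]
      have h3 : ins (JB col d) a b n ∈ N := by
        rw [hN]
        exact Submodule.subset_span ⟨d, a, ha, b, hb, hab, n, hn, rfl⟩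
      rw [hu.2 _ h3, mul_zero]
    have hzero := HT (ν + 1) R U1 (by omega) hR hU1st hU1good hcon
    intro u hu
    obtain ⟨n, hn, hun⟩ := exists_decomp N u
    have h1 : u - n ∈ U1 :=
      ⟨Submodule.sub_mem _ (Submodule.mem_sup_left hu) (Submodule.mem_sup_right hn), hun⟩
    have h2 := hzero _ h1
    rw [sub_eq_zero] at h2
    rw [h2]; exact hn

end Claim

end Pool.Agent.Helper48.GC8
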