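import Pool.Agent.Helper48.GC8.Diag

/-!
# Weil numbers
-/

set_option autoImplicit false

namespace Pool.Agent.Helper48.GC8

open Function Polynomial

section Coeff

variable {g : ℕ} {κ : Type} [DecidableEq κ]

lemma coeff_prod {T : Type} [Fintype T] [DecidableEq T] (lam : T → ℂ) {k : ℕ}
    (hk : k ≤ Fintype.card T) :
    (∏ a, (X - C (lam a))).coeff (Fintype.card T - k) =
      (-1) ^ k * ∑ t ∈ Finset.powersetCard k Finset.univ, ∏ a ∈ t, lam a := by
  have h1 : (∏ a, (X - C (lam a))) =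
      ((Finset.univ.val.map lam).map (fun t => X - C t)).prod := by
    rw [Multiset.map_map]; rfl
  have h2 : Multiset.card ((Finset.univ : Finset T).val.map lam) = Fintype.card T := by
    rw [Multiset.card_map, Finset.card_val, Finset.card_univ]
  rw [h1, Multiset.prod_X_sub_C_coeff _ (by rw [h2]; omega), h2, Finset.esymm_map_val]
  have h3 : Fintype.card T - (Fintype.card T - k) = k := by omega
  rw [h3]

/-- The block with color `c` of a matrix. -/
def block (col : Fin g → κ) (c : κ) (M : Matrix (L2 g) (L2 g) ℂ) :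
    Matrix {r : L2 g // col (pr r) = c} {r : L2 g // col (pr r) = c} ℂ :=
  M.submatrix Subtype.val Subtype.val

/-- The number of indices with color `c`. -/
def gc (col : Fin g → κ) (c : κ) : ℕ := (Finset.univ.filter (fun i => col i = c)).card

lemma card_block (col : Fin g → κ) (c : κ) :
    Fintype.card {r : L2 g // col (pr r) = c} = 2 * gc col c := by
  have e : {r : L2 g // col (pr r) = c} ≃ {i : Fin g // col i = c} ⊕ {i : Fin g // col i = c} :=
    { toFun := fun r => match r with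
        | ⟨Sum.inl i, h⟩ => Sum.inl ⟨i, h⟩
        | ⟨Sum.inr i, h⟩ => Sum.inr ⟨i, h⟩
      invFun := fun r => match r with
        | Sum.inl ⟨i, h⟩ => ⟨Sum.inl i, h⟩
        | Sum.inr ⟨i, h⟩ => ⟨Sum.inr i, h⟩
      left_inv := by rintro ⟨r | r, h⟩ <;> rfl
      right_inv := by rintro (⟨r, h⟩ | ⟨r, h⟩) <;> rfl }
  rw [Fintype.card_congr e, Fintype.card_sum, Fintype.card_subtype]
  unfold gc
  ring

omit [DecidableEq κ] in
lemma block_mul (col : Fin g → κ) (c : κ) (Y Z : Matrix (L2 g) (L2 g) ℂ)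
    [Fintype {r : L2 g // col (pr r) = c}]
    (hZ : ∀ r s, col (pr s) = c → col (pr r) ≠ c → Z r s = 0) :
    block col c (Y * Z) = block col c Y * block col c Z := by
  ext r s
  rw [block, Matrix.submatrix_apply, Matrix.mul_apply, Matrix.mul_apply]
  symm
  refine Fintype.sum_of_injective (Subtype.val : {r : L2 g // col (pr r) = c} → L2 g)
    Subtype.val_injective _ _ ?_ ?_
  · intro x hx
    rw [hZ x s.1 s.2 (fun h => hx ⟨⟨x, h⟩, rfl⟩), mul_zero]
  · intro x
    rfl

omit [DecidableEq κ] in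
lemma block_diagonal (col : Fin g → κ) (c : κ) (d : L2 g → ℂ) :
    block col c (Matrix.diagonal d) = Matrix.diagonal fun r => d r.1 := by
  ext r s
  rw [block, Matrix.submatrix_apply]
  by_cases h : r = s
  · subst h; simp
  · rw [Matrix.diagonal_apply_ne _ h, Matrix.diagonal_apply_ne]
    exact fun h' => h (Subtype.ext h')

lemma SE.charpoly_block {col : Fin g → κ} {M : Matrix (L2 g) (L2 g) ℂ}
    {b : L2 g → (L2 g → ℂ)} {lam : L2 g → ℂ} (h : SE col M b lam) (c : κ) :
    (block col c M).charpoly = ∏ a : {r : L2 g // col (pr r) = c}, (X - C (lam a.1)) := by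
  have hS : ∀ r s, col (pr s) = c → col (pr r) ≠ c → SE.mat b r s = 0 := by
    intro r s hs hr
    exact h.blk s r (by rw [hs]; exact hr)
  have hD : ∀ r s, col (pr s) = c → col (pr r) ≠ c → Matrix.diagonal lam r s = 0 := by
    intro r s hs hr
    rw [Matrix.diagonal_apply_ne]
    rintro rfl
    exact hr hs
  obtain ⟨S', hS'⟩ := h.exists_inv
  have h1 : block col c M * block col c (SE.mat b) =
      block col c (SE.mat b) * Matrix.diagonal (fun r => lam r.1) := by
    rw [← block_mul col c M _ hS, h.mul_mat, block_mul col c _ _ hD, block_diagonal]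
  have h2 : block col c S' * block col c (SE.mat b) = 1 := by
    rw [← block_mul col c _ _ hS, hS', ← Matrix.diagonal_one, block_diagonal,
      Matrix.diagonal_one]
  have h3 : block col c (SE.mat b) * block col c S' = 1 := mul_eq_one_comm.1 h2
  have h4 : block col c M = block col c (SE.mat b) * Matrix.diagonal (fun r => lam r.1) *
      block col c S' := by
    rw [← h1, Matrix.mul_assoc, h3, Matrix.mul_one]
  rw [h4, Matrix.charpoly_mul_comm, ← Matrix.mul_assoc, h2, Matrix.one_mul,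
    Matrix.charpoly_diagonal]

/-- If a coefficient of the characteristic polynomial is prime to `q`, there are many
eigenvalues outside of any prime ideal over `q`. -/
lemma units_of_coeff {T : Type} [Fintype T] [DecidableEq T] {q : ℕ} {lam : T → ℂ}
    (hint : ∀ a, IsIntegral ℤ (lam a))
    {P : Ideal (integralClosure ℤ ℂ)} (hP : P.IsPrime) (hqP : (q : integralClosure ℤ ℂ) ∈ P)
    {c : ℤ} {k : ℕ} (hc : (c : ℂ) = (-1) ^ k *
      ∑ t ∈ Finset.powersetCard k (Finset.univ : Finset T), ∏ a ∈ t, lam a)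
    (hcop : IsCoprime c (q : ℤ)) :
    ∃ T' : Finset T, T'.card = k ∧ ∀ a ∈ T', (⟨lam a, hint a⟩ : integralClosure ℤ ℂ) ∉ P := by
  by_contra hcon
  push Not at hcon
  have h1 : (c : integralClosure ℤ ℂ) = (-1) ^ k *
      ∑ t ∈ Finset.powersetCard k (Finset.univ : Finset T),
        ∏ a ∈ t, (⟨lam a, hint a⟩ : integralClosure ℤ ℂ) := by
    apply Subtype.ext
    push_cast
    exact hc
  have h2 : (c : integralClosure ℤ ℂ) ∈ P := by
    rw [h1]
    refine P.mul_mem_left _ (P.sum_mem fun t ht => ?_)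
    obtain ⟨a, ha, haP⟩ := hcon t (Finset.mem_powersetCard.1 ht).2
    rw [← Finset.mul_prod_erase t _ ha]
    exact P.mul_mem_right _ haP
  obtain ⟨u, v, huv⟩ := hcop
  apply hP.ne_top
  rw [Ideal.eq_top_iff_one]
  have h3 : (1 : integralClosure ℤ ℂ) = (u : integralClosure ℤ ℂ) * c +
      (v : integralClosure ℤ ℂ) * (q : integralClosure ℤ ℂ) := by
    have := congrArg (fun z : ℤ => (z : integralClosure ℤ ℂ)) huv
    push_cast at this
    rw [this]
  rw [h3]
  exact P.add_mem (P.mul_mem_left _ h2) (P.mul_mem_left _ hqP)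

lemma not_integral_inv {q : ℕ} (hq : 2 ≤ q) (z : integralClosure ℤ ℂ) :
    (q : integralClosure ℤ ℂ) * z ≠ 1 := by
  intro h
  have h1 : (q : ℂ) * (z : ℂ) = 1 := by
    have := congrArg (fun x : integralClosure ℤ ℂ => (x : ℂ)) h
    push_cast at this
    exact this
  have hq0 : (q : ℂ) ≠ 0 := by
    have : q ≠ 0 := by omega
    exact_mod_cast this
  have h2 : (z : ℂ) = algebraMap ℚ ℂ ((q : ℚ)⁻¹) := by
    rw [eq_comm]
    push_cast [eq_ratCast]
    field_simp
    exact h1.symm
  have h3 : IsIntegral ℤ (algebraMap ℚ ℂ ((q : ℚ)⁻¹)) := h2 ▸ z.2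
  have h4 : IsIntegral ℤ ((q : ℚ)⁻¹) :=
    (isIntegral_algebraMap_iff (algebraMap ℚ ℂ).injective).1 h3
  obtain ⟨m, hm⟩ := IsIntegrallyClosed.isIntegral_iff.1 h4
  have h5 : (q : ℚ) * m = 1 := by
    have hq1 : (q : ℚ) ≠ 0 := by
      have : q ≠ 0 := by omega
      exact_mod_cast this
    have h6 : (m : ℚ) = (q : ℚ)⁻¹ := by simpa using hm
    rw [h6, mul_inv_cancel₀ hq1]
  have h6 : (q : ℤ) * m = 1 := by exact_mod_cast h5
  have h7 : (q : ℤ) ∣ 1 := ⟨m, h6.symm⟩
  have h8 := Int.le_of_dvd one_pos h7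
  omega

lemma exists_prime {q : ℕ} (hq : 2 ≤ q) :
    ∃ P : Ideal (integralClosure ℤ ℂ), P.IsPrime ∧ (q : integralClosure ℤ ℂ) ∈ P := by
  have h1 : Ideal.span {(q : integralClosure ℤ ℂ)} ≠ ⊤ := by
    intro h
    rw [Ideal.span_singleton_eq_top, isUnit_iff_exists_inv] at h
    obtain ⟨z, hz⟩ := h
    exact not_integral_inv hq z hz
  obtain ⟨P, hP, hle⟩ := Ideal.exists_le_maximal _ h1
  exact ⟨P, hP.isPrime, hle (Ideal.mem_span_singleton_self _)⟩

end Coeff

section Final

variable {g : ℕ} {κ : Type} [Fintype κ] [DecidableEq κ]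

lemma lam_mul_swap {lam : L2 g → ℂ} {q : ℕ}
    (hmul : ∀ i, lam (Sum.inl i) * lam (Sum.inr i) = (q : ℂ)) (r : L2 g) :
    lam r * lam r.swap = q := by
  rcases r with i | i
  · exact hmul i
  · rw [Sum.swap_inr, mul_comm]; exact hmul i

lemma eq_or_swap {r s : L2 g} (h : pr r = pr s) : r = s ∨ s = r.swap := by
  rcases r with i | i <;> rcases s with j | j <;>
    simp only [pr, Sum.elim_inl, Sum.elim_inr, id] at h <;> subst h <;> simp

/-- Two eigenvalues outside of `P` belong to different pairs. -/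
lemma pr_injOn {q : ℕ} {lam : L2 g → ℂ} (hint : ∀ a, IsIntegral ℤ (lam a))
    (hmul : ∀ i, lam (Sum.inl i) * lam (Sum.inr i) = (q : ℂ))
    {P : Ideal (integralClosure ℤ ℂ)} (hP : P.IsPrime) (hqP : (q : integralClosure ℤ ℂ) ∈ P)
    {S : Set (L2 g)} (hS : ∀ a ∈ S, (⟨lam a, hint a⟩ : integralClosure ℤ ℂ) ∉ P) :
    Set.InjOn pr S := by
  intro a ha b hb hab
  rcases eq_or_swap hab with h | h
  · exact h
  · exfalso
    have h1 : (⟨lam a, hint a⟩ : integralClosure ℤ ℂ) * ⟨lam b, hint b⟩ ∈ P := by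
      have h2 : (⟨lam a, hint a⟩ : integralClosure ℤ ℂ) * ⟨lam b, hint b⟩ = q := by
        apply Subtype.ext
        push_cast
        rw [h]
        exact lam_mul_swap hmul a
      rw [h2]; exact hqP
    rcases hP.mem_or_mem h1 with h3 | h3
    · exact hS a ha h3
    · exact hS b hb h3

omit [Fintype κ] in
/-- A permutation preserving the colors which moves `Q` into `P'`. -/
lemma exists_perm (col : Fin g → κ) (Q : Finset (Fin g)) (P' : κ → Finset (Fin g))
    (hP' : ∀ c, ∀ i ∈ P' c, col i = c)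
    (hcard : ∀ c, (Q.filter (fun i => col i = c)).card = (P' c).card) :
    ∃ σ : Equiv.Perm (Fin g), (∀ i, col (σ i) = col i) ∧ ∀ i ∈ Q, σ i ∈ P' (col i) := by
  have hc : ∀ c, ∃ τ : Equiv.Perm {i : Fin g // col i = c}, ∀ i, i.1 ∈ Q → (τ i).1 ∈ P' c := by
    intro c
    let Qc : Finset {i : Fin g // col i = c} := Q.subtype (fun i => col i = c)
    let Pc : Finset {i : Fin g // col i = c} := (P' c).subtype (fun i => col i = c)
    have h1 : Qc.card = Pc.card := by
      rw [Finset.card_subtype, Finset.card_subtype, hcard c]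
      congr 1
      rw [Finset.filter_true_of_mem (hP' c)]
    have e : {x // x ∈ Qc} ≃ {x // x ∈ Pc} := Finset.equivOfCardEq h1
    refine ⟨e.extendSubtype, fun i hi => ?_⟩
    have h2 := e.extendSubtype_mem i (Finset.mem_subtype.2 hi)
    exact Finset.mem_subtype.1 h2
  choose τ hτ using hc
  refine ⟨(Equiv.sigmaFiberEquiv col).symm.trans ((Equiv.sigmaCongrRight τ).trans
    (Equiv.sigmaFiberEquiv col)), ?_, ?_⟩
  · intro i
    exact (τ (col i) ⟨i, rfl⟩).2
  · intro i hi
    exact hτ (col i) ⟨i, rfl⟩ hi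

/-- The arithmetic contradiction. -/
lemma arith_final (col : Fin g → κ) {r : κ → ℕ} {w t q : ℕ} (hq : 2 ≤ q) {lam : L2 g → ℂ}
    (hint : ∀ a, IsIntegral ℤ (lam a))
    (hmul : ∀ i, lam (Sum.inl i) * lam (Sum.inr i) = (q : ℂ))
    {P : Ideal (integralClosure ℤ ℂ)} (hP : P.IsPrime) (hqP : (q : integralClosure ℤ ℂ) ∈ P)
    {T : κ → Finset (L2 g)} (hT : ∀ c, r c ≤ (T c).card) (hTc : ∀ c, ∀ a ∈ T c, col (pr a) = c)
    (hTP : ∀ c, ∀ a ∈ T c, (⟨lam a, hint a⟩ : integralClosure ℤ ℂ) ∉ P)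
    {μ : Fin g → ℕ} (hμ : ∑ i, μ i = w + 2 * t) (ht : 1 ≤ t) (hr : ∀ c, 1 ≤ r c)
    (hrg : ∀ c, r c ≤ gc col c)
    (hw : ∀ w' : κ → ℕ, ∑ c, w' c ≤ w → ∑ c, (gc col c - r c) * (w' c / r c) ≤ 1)
    (H : ∀ ε : Fin g → L2 g, Injective (fun i => pr (ε i)) → (∀ i, col (pr (ε i)) = col i) →
      IsIntegral ℤ ((∏ i, lam (ε i) ^ μ i) / (q : ℂ) ^ t)) : False := by
  classical
  have hq0 : (q : ℂ) ≠ 0 := by
    have : q ≠ 0 := by omega
    exact_mod_cast this
  -- one unit eigenvalue for each of `r c` indices of color `c`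
  have hprT : ∀ c, Set.InjOn pr (T c : Set (L2 g)) := fun c =>
    pr_injOn hint hmul hP hqP (hTP c)
  have hP' : ∀ c, ∃ P' ⊆ (T c).image pr, P'.card = r c := by
    intro c
    apply Finset.exists_subset_card_eq
    rw [Finset.card_image_of_injOn (hprT c)]
    exact hT c
  choose P' hP'sub hP'card using hP'
  have hP'c : ∀ c, ∀ i ∈ P' c, col i = c := by
    intro c i hi
    obtain ⟨a, ha, rfl⟩ := Finset.mem_image.1 (hP'sub c hi)
    exact hTc c a ha
  have hε0 : ∀ i, ∃ a : L2 g, pr a = i ∧ (i ∈ P' (col i) → a ∈ T (col i)) := by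
    intro i
    by_cases hi : i ∈ P' (col i)
    · obtain ⟨a, ha, hai⟩ := Finset.mem_image.1 (hP'sub _ hi)
      exact ⟨a, hai, fun _ => ha⟩
    · exact ⟨Sum.inl i, rfl, fun h => absurd h hi⟩
  choose ε0 hε0pr hε0T using hε0
  -- the inequality
  have hineq : ∀ Q : Finset (Fin g), (∀ c, (Q.filter (fun i => col i = c)).card = r c) →
      2 * t ≤ ∑ i ∈ Qᶜ, μ i := by
    intro Q hQ
    by_contra hlt
    push Not at hlt
    set s := ∑ i ∈ Qᶜ, μ i with hs
    obtain ⟨σ, hσc, hσ⟩ := exists_perm col Q P' hP'c (fun c => by rw [hQ, hP'card])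
    have h1 := H (fun i => ε0 (σ i)) (by
      intro i j hij
      simp only [hε0pr] at hij
      exact σ.injective hij) (by
      intro i
      rw [hε0pr, hσc])
    have h2 := H (fun i => if i ∈ Q then ε0 (σ i) else (ε0 (σ i)).swap) (by
      have h3 : (fun i => pr (if i ∈ Q then ε0 (σ i) else (ε0 (σ i)).swap)) = σ := by
        funext i
        split_ifs
        · exact hε0pr _
        · rw [pr_swap]; exact hε0pr _
      rw [h3]
      exact σ.injective) (by
      intro i
      split_ifs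
      · rw [hε0pr, hσc]
      · rw [pr_swap, hε0pr, hσc])
    have h3 : (∏ i, lam (ε0 (σ i)) ^ μ i) *
        (∏ i, lam (if i ∈ Q then ε0 (σ i) else (ε0 (σ i)).swap) ^ μ i) =
        (∏ i ∈ Q, lam (ε0 (σ i)) ^ μ i) ^ 2 * (q : ℂ) ^ s := by
      rw [← Finset.prod_mul_distrib, ← Finset.prod_mul_prod_compl Q]
      congr 1
      · rw [← Finset.prod_pow]
        refine Finset.prod_congr rfl fun i hi => ?_
        rw [if_pos hi]; ring
      · rw [hs, ← Finset.prod_pow_eq_pow_sum]
        refine Finset.prod_congr rfl fun i hi => ?_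
        rw [if_neg (Finset.mem_compl.1 hi), ← mul_pow, lam_mul_swap hmul]
    have h4 : (∏ i ∈ Q, lam (ε0 (σ i)) ^ μ i) ^ 2 = (q : ℂ) * ((q : ℂ) ^ (2 * t - s - 1) *
        (((∏ i, lam (ε0 (σ i)) ^ μ i) / (q : ℂ) ^ t) *
        ((∏ i, lam (if i ∈ Q then ε0 (σ i) else (ε0 (σ i)).swap) ^ μ i) / (q : ℂ) ^ t))) := by
      rw [div_mul_div_comm, h3]
      have h5 : (q : ℂ) ^ t * (q : ℂ) ^ t = (q : ℂ) * (q : ℂ) ^ (2 * t - s - 1) * (q : ℂ) ^ s := by
        rw [← pow_add, ← pow_succ', ← pow_add]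
        congr 1
        omega
      rw [h5]
      field_simp
    have h5 : (∏ i ∈ Q, (⟨lam (ε0 (σ i)), hint _⟩ : integralClosure ℤ ℂ) ^ μ i) ^ 2 ∈ P := by
      have h6 : (∏ i ∈ Q, (⟨lam (ε0 (σ i)), hint _⟩ : integralClosure ℤ ℂ) ^ μ i) ^ 2 =
          (q : integralClosure ℤ ℂ) * ((q : integralClosure ℤ ℂ) ^ (2 * t - s - 1) *
          ((⟨_, h1⟩ : integralClosure ℤ ℂ) * ⟨_, h2⟩)) := by
        apply Subtype.ext
        push_cast
        exact h4
      rw [h6]
      exact P.mul_mem_right _ hqP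
    have h6 := hP.mem_of_pow_mem 2 h5
    rw [hP.prod_mem_iff] at h6
    obtain ⟨i, hi, h7⟩ := h6
    refine hTP (col i) _ ?_ (hP.mem_of_pow_mem _ h7)
    have h8 := hσ i hi
    have h9 := hε0T (σ i)
    rw [hσc i] at h9
    exact h9 h8
  -- the combinatorial contradiction
  let fam : Finset (Finset (Fin g)) :=
    Finset.univ.filter (fun Q => ∀ c, (Q.filter (fun i => col i = c)).card = r c)
  have hfam : fam.Nonempty := by
    have h1 : ∀ c, ∃ Qc ⊆ Finset.univ.filter (fun i => col i = c), Qc.card = r c := by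
      intro c
      exact Finset.exists_subset_card_eq (hrg c)
    choose Qc hQc1 hQc2 using h1
    refine ⟨Finset.univ.filter (fun i => i ∈ Qc (col i)), Finset.mem_filter.2
      ⟨Finset.mem_univ _, fun c => ?_⟩⟩
    rw [← hQc2 c]
    congr 1
    ext i
    simp only [Finset.mem_filter, Finset.mem_univ, true_and]
    constructor
    · rintro ⟨h1, h2⟩
      rwa [h2] at h1
    · intro h1
      have h2 : col i = c := (Finset.mem_filter.1 (hQc1 c h1)).2
      exact ⟨by rw [h2]; exact h1, h2⟩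
  obtain ⟨Q, hQmem, hQmax⟩ := Finset.exists_max_image fam (fun Q => ∑ i ∈ Q, μ i) hfam
  have hQcard : ∀ c, (Q.filter (fun i => col i = c)).card = r c := (Finset.mem_filter.1 hQmem).2
  have h1 := hineq Q hQcard
  have h2 : ∑ i ∈ Q, μ i ≤ w := by
    have := Finset.sum_add_sum_compl Q μ
    omega
  let w' : κ → ℕ := fun c => ∑ i ∈ Q with col i = c, μ i
  have hw' : ∑ c, w' c ≤ w := by
    simp only [w']
    rw [Finset.sum_fiberwise]
    exact h2
  have h3 : ∀ i ∈ Qᶜ, μ i ≤ w' (col i) / r (col i) := by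
    intro i hi
    have hiQ' := Finset.mem_compl.1 hi
    rw [Nat.le_div_iff_mul_le (hr _)]
    have h4 : ∀ j ∈ Q.filter (fun j => col j = col i), μ i ≤ μ j := by
      intro j hj
      obtain ⟨hjQ, hjc⟩ := Finset.mem_filter.1 hj
      have hiQ : i ∉ Q.erase j := fun h => hiQ' (Finset.mem_of_mem_erase h)
      have h5 := hQmax (insert i (Q.erase j)) (by
        refine Finset.mem_filter.2 ⟨Finset.mem_univ _, fun c => ?_⟩
        rw [Finset.filter_insert, Finset.filter_erase]
        by_cases hc : col i = c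
        · rw [if_pos hc, Finset.card_insert_of_notMem, Finset.card_erase_of_mem, hQcard c]
          · have := hr c; omega
          · exact Finset.mem_filter.2 ⟨hjQ, by rw [hjc, hc]⟩
          · intro h
            exact hiQ' (Finset.mem_filter.1 (Finset.mem_of_mem_erase h)).1
        · rw [if_neg hc, Finset.erase_eq_of_notMem, hQcard c]
          intro h
          exact hc (by rw [← hjc]; exact (Finset.mem_filter.1 h).2))
      rw [Finset.sum_insert hiQ] at h5
      have h6 := Finset.add_sum_erase Q μ hjQ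
      omega
    calc μ i * r (col i) = ∑ j ∈ Q.filter (fun j => col j = col i), μ i := by
          rw [Finset.sum_const, hQcard, smul_eq_mul, mul_comm]
      _ ≤ w' (col i) := Finset.sum_le_sum h4
  have h4 : ∑ i ∈ Qᶜ, μ i ≤ ∑ c, (gc col c - r c) * (w' c / r c) := by
    rw [← Finset.sum_fiberwise Qᶜ col μ]
    refine Finset.sum_le_sum fun c _ => ?_
    have h5 : (Qᶜ.filter (fun i => col i = c)).card = gc col c - r c := by
      have h6 : Qᶜ.filter (fun i => col i = c) =
          (Finset.univ.filter (fun i => col i = c)) \ (Q.filter (fun i => col i = c)) := by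
        ext i
        simp only [Finset.mem_filter, Finset.mem_compl, Finset.mem_univ, true_and,
          Finset.mem_sdiff]
        tauto
      rw [h6, Finset.card_sdiff_of_subset (Finset.filter_subset_filter _ (Finset.subset_univ _)),
        hQcard]
      rfl
    calc ∑ i ∈ Qᶜ with col i = c, μ i ≤ ∑ i ∈ Qᶜ with col i = c, w' c / r c := by
          refine Finset.sum_le_sum fun i hi => ?_
          obtain ⟨hi1, hi2⟩ := Finset.mem_filter.1 hi
          have h6 := h3 i hi1
          rwa [hi2] at h6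
      _ = (gc col c - r c) * (w' c / r c) := by
          rw [Finset.sum_const, h5, smul_eq_mul]
  have h5 := hw w' hw'
  omega

variable {ι : Type} [Fintype ι] [DecidableEq ι]

/-- Stable good spaces of traceless tensors vanish. -/
lemma terminal {col : Fin g → κ} {𝓕 : Set (ℕ × Matrix (L2 g) (L2 g) ℂ)}
    {z : ℕ × Matrix (L2 g) (L2 g) ℂ}
    (hz : z ∈ 𝓕) (hq : 2 ≤ z.1) (hM : Sim col (z.1 : ℂ) z.2) {b : L2 g → (L2 g → ℂ)}
    {lam : L2 g → ℂ} (hSE : SE col z.2 b lam) (hint : ∀ a, IsIntegral ℤ (lam a))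
    {P : Ideal (integralClosure ℤ ℂ)} (hP : P.IsPrime)
    (hqP : (z.1 : integralClosure ℤ ℂ) ∈ P) {r : κ → ℕ} {w : ℕ}
    {T : κ → Finset (L2 g)} (hT : ∀ c, r c ≤ (T c).card) (hTc : ∀ c, ∀ a ∈ T c, col (pr a) = c)
    (hTP : ∀ c, ∀ a ∈ T c, (⟨lam a, hint a⟩ : integralClosure ℤ ℂ) ∉ P)
    (hr : ∀ c, 1 ≤ r c) (hrg : ∀ c, r c ≤ gc col c)
    (hw : ∀ w' : κ → ℕ, ∑ c, w' c ≤ w → ∑ c, (gc col c - r c) * (w' c / r c) ≤ 1)
    (t : ℕ) (R : Finset ι) (U : Submodule ℂ (Ten ι (L2 g))) (ht : 1 ≤ t)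
    (hR : R.card = w + 2 * t) (hst : Stab col R U) (hgood : Good 𝓕 R t U)
    (htr : ∀ u ∈ U, ∀ c, ∀ a ∈ R, ∀ b ∈ R, a ≠ b → con (JB col c) a b u = 0) :
    ∀ u ∈ U, u = 0 := by
  classical
  by_contra hcon
  push Not at hcon
  obtain ⟨u, hu, x, hx, hxR⟩ := exists_highest col R U (fun B hB hBc u hu =>
    hst 1 (Matrix.fromBlocks 1 B 0 1) one_ne_zero (by
      refine ⟨?_, ?_⟩
      · rw [Matrix.fromBlocks_transpose, Matrix.J, Matrix.fromBlocks_multiply,
          Matrix.fromBlocks_multiply]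
        simp [hB]
      · intro r s hrs
        rcases r with i | i <;> rcases s with j | j <;>
          simp only [pr, Sum.elim_inl, Sum.elim_inr, id] at hrs
        · rw [Matrix.fromBlocks_apply₁₁, Matrix.one_apply_ne]
          rintro rfl; exact hrs rfl
        · rw [Matrix.fromBlocks_apply₁₂]
          exact hBc i j hrs
        · rw [Matrix.fromBlocks_apply₂₁]; rfl
        · rw [Matrix.fromBlocks_apply₂₂, Matrix.one_apply_ne]
          rintro rfl; exact hrs rfl) u hu) htr hcon
  have hxR' : ∀ k ∈ R, x k = Sum.inl (pr (x k)) := by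
    intro k hk
    obtain ⟨i, hi⟩ := hxR k hk
    rw [hi]; rfl
  refine arith_final col (μ := fun i => (R.filter (fun k => pr (x k) = i)).card) hq hint
    (fun i => hSE.mul_eq hM i) hP hqP hT hTc hTP ?_ ht hr hrg hw ?_
  · rw [← hR]
    exact (Finset.card_eq_sum_card_fiberwise (fun k _ => Finset.mem_coe.2 (Finset.mem_univ _))).symm
  · intro ε hε hεc
    obtain ⟨b', lam', hSE', hlam'⟩ := hSE.perm ε hε hεc
    have h1 := integral_of_SE hst hgood hz hSE' hu hx
    have h2 : ∏ k ∈ R, lam' (x k) =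
        ∏ i, lam (ε i) ^ (R.filter (fun k => pr (x k) = i)).card := by
      rw [← Finset.prod_fiberwise R (fun k => pr (x k))]
      refine Finset.prod_congr rfl fun i _ => ?_
      rw [← Finset.prod_const]
      refine Finset.prod_congr rfl fun k hk => ?_
      obtain ⟨hk1, hk2⟩ := Finset.mem_filter.1 hk
      rw [hxR' k hk1, hlam', hk2]
    rwa [h2] at h1

end Final

section Auto

variable {g : ℕ} {κ₀ κ : Type} [Fintype κ] [DecidableEq κ]

/-- Density forces a Frobenius all of whose (coarse) blocks have a coefficient prime to `p`. -/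
lemma rank_auto (col₀ : Fin g → κ₀) (col : Fin g → κ) {𝓕 : Set (ℕ × Matrix (L2 g) (L2 g) ℂ)}
    {k : κ → ℕ} (hk2 : ∀ c, k c ≤ 2)
    (hkg : ∀ c, k c ≤ gc col c)
    (h𝓕 : ∀ z ∈ 𝓕, 2 ≤ z.1 ∧ (∀ c, ∃ P : ℤ[X], P.map (Int.castRingHom ℂ) =
      (block col c z.2).charpoly) ∧ ∃ b lam, SE col z.2 b lam ∧ ∀ a, ‖lam a‖ = Real.sqrt z.1)
    (hsim : ∀ z ∈ 𝓕, Sim col₀ (z.1 : ℂ) z.2)
    (hdense : ∀ f : MvPolynomial (L2 g × L2 g) ℂ,
      (∀ z ∈ 𝓕, z.1.Prime → MvPolynomial.eval (fun p => z.2 p.1 p.2) f = 0) →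
      ∀ (c : ℂ) (X : Matrix (L2 g) (L2 g) ℂ), c ≠ 0 → Sim col₀ c X →
        MvPolynomial.eval (fun p => X p.1 p.2) f = 0) :
    ∃ z ∈ 𝓕, ∀ c, 1 ≤ k c → ∃ P : ℤ[X], P.map (Int.castRingHom ℂ) = (block col c z.2).charpoly ∧
      IsCoprime (P.coeff (2 * gc col c - k c)) (z.1 : ℤ) := by
  classical
  by_contra hcon
  push Not at hcon
  have hk2g : ∀ c, k c ≤ 2 * gc col c := fun c => by have := hkg c; omega
  by_cases hg : g = 0
  · -- no blocks at all
    subst hg
    have h1 : ∀ z ∈ 𝓕, False := by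
      intro z hz
      obtain ⟨c, h2, -⟩ := hcon z hz
      have h1 := hkg c
      have h3 : gc col c = 0 := by
        unfold gc
        rw [Finset.card_eq_zero]
        ext i
        exact i.elim0
      omega
    have h2 := hdense 1 (fun z hz => (h1 z hz).elim) 1 1 one_ne_zero ⟨by simp, fun r => by
      rcases r with i | i <;> exact i.elim0⟩
    simp at h2
  have hg' : 0 < g := Nat.pos_of_ne_zero hg
  set N : ℕ := 2 ^ (2 * g) with hN
  let i0 : Fin g := ⟨0, hg'⟩
  -- the polynomial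
  let mult : MvPolynomial (L2 g × L2 g) ℂ := ∑ a, ∑ b,
    MvPolynomial.X (a, Sum.inr i0) * MvPolynomial.C (Matrix.J (Fin g) ℂ a b) *
      MvPolynomial.X (b, Sum.inl i0)
  have hmult : ∀ (c : ℂ) (X : Matrix (L2 g) (L2 g) ℂ), Sim col₀ c X →
      MvPolynomial.eval (fun p => X p.1 p.2) mult = c := by
    intro c X hX
    have h1 := congrFun (congrFun hX.form (Sum.inr i0)) (Sum.inl i0)
    rw [Matrix.smul_apply, J_rl, if_pos rfl, smul_eq_mul, mul_one] at h1
    rw [← h1]
    simp only [mult, map_sum, map_mul, MvPolynomial.eval_X, MvPolynomial.eval_C,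
      Matrix.mul_apply, Matrix.transpose_apply, Finset.sum_mul]
    exact Finset.sum_comm
  let cf : κ → MvPolynomial (L2 g × L2 g) ℂ := fun c =>
    MvPolynomial.rename (fun p : {r : L2 g // col (pr r) = c} × {r : L2 g // col (pr r) = c} =>
      (p.1.1, p.2.1)) ((Matrix.charpoly.univ ℂ {r : L2 g // col (pr r) = c}).coeff
        (2 * gc col c - k c))
  have hcf : ∀ (c : κ) (X : Matrix (L2 g) (L2 g) ℂ),
      MvPolynomial.eval (fun p => X p.1 p.2) (cf c) =
        (block col c X).charpoly.coeff (2 * gc col c - k c) := by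
    intro c X
    simp only [cf]
    rw [MvPolynomial.eval_rename]
    exact Matrix.charpoly.univ_coeff_eval₂Hom {r : L2 g // col (pr r) = c} (RingHom.id ℂ)
      (fun p => X p.1.1 p.2.1) (2 * gc col c - k c)
  let F : MvPolynomial (L2 g × L2 g) ℂ :=
    ∏ c ∈ Finset.univ.filter (fun c => 1 ≤ k c),
      ∏ m ∈ Finset.Icc (-(N : ℤ)) N, (cf c - MvPolynomial.C (m : ℂ) * mult)
  have hchoose : ∀ c, ((2 * gc col c).choose (k c) : ℝ) ≤ N := by
    intro c
    have h1 : (2 * gc col c).choose (k c) ≤ N := by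
      refine (Nat.choose_le_two_pow _ _).trans (Nat.pow_le_pow_right (by norm_num) ?_)
      have h2 : gc col c ≤ g := by
        unfold gc
        refine (Finset.card_filter_le _ _).trans ?_
        rw [Finset.card_univ, Fintype.card_fin]
      omega
    exact_mod_cast h1
  have hF : ∀ z ∈ 𝓕, z.1.Prime → MvPolynomial.eval (fun p => z.2 p.1 p.2) F = 0 := by
    intro z hz hprime
    obtain ⟨hq, hPP, b, lam, hSE, hnorm⟩ := h𝓕 z hz
    obtain ⟨c, hkc, hc⟩ := hcon z hz
    obtain ⟨P, hP⟩ := hPP c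
    have hq0 : (0 : ℝ) < z.1 := by exact_mod_cast (by omega : 0 < z.1)
    have hdvd : (z.1 : ℤ) ∣ P.coeff (2 * gc col c - k c) := by
      by_contra h
      exact hc P hP
        (((Nat.prime_iff_prime_int.1 hprime).irreducible.coprime_iff_not_dvd.2 h).symm)
    obtain ⟨m, hm⟩ := hdvd
    have h1 : (block col c z.2).charpoly.coeff (2 * gc col c - k c) = (m : ℂ) * z.1 := by
      rw [← hP, coeff_map, hm, eq_intCast]
      push_cast
      ring
    have h2 : ‖(block col c z.2).charpoly.coeff (2 * gc col c - k c)‖ ≤ N * z.1 := by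
      rw [hSE.charpoly_block c, ← card_block col c, coeff_prod _ (by
        rw [card_block]; exact hk2g c), norm_mul, norm_pow, norm_neg, norm_one, one_pow,
        one_mul]
      calc ‖∑ t ∈ Finset.powersetCard (k c) (Finset.univ : Finset {r : L2 g // col (pr r) = c}),
              ∏ a ∈ t, lam a.1‖
          ≤ ∑ t ∈ Finset.powersetCard (k c)
              (Finset.univ : Finset {r : L2 g // col (pr r) = c}), ‖∏ a ∈ t, lam a.1‖ :=
            norm_sum_le _ _
        _ ≤ ∑ t ∈ Finset.powersetCard (k c)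
              (Finset.univ : Finset {r : L2 g // col (pr r) = c}), (z.1 : ℝ) := by
            refine Finset.sum_le_sum fun t ht => ?_
            rw [norm_prod, Finset.prod_congr rfl fun a _ => hnorm a.1, Finset.prod_const,
              (Finset.mem_powersetCard.1 ht).2]
            have h3 : (1 : ℝ) ≤ Real.sqrt z.1 := by
              rw [Real.one_le_sqrt]
              exact_mod_cast (by omega : 1 ≤ z.1)
            calc Real.sqrt z.1 ^ k c ≤ Real.sqrt z.1 ^ 2 := pow_le_pow_right₀ h3 (hk2 c)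
              _ = z.1 := Real.sq_sqrt hq0.le
        _ = (2 * gc col c).choose (k c) * z.1 := by
            rw [Finset.sum_const, Finset.card_powersetCard, Finset.card_univ, card_block,
              nsmul_eq_mul]
        _ ≤ N * z.1 := mul_le_mul_of_nonneg_right (hchoose c) hq0.le
    have h3 : |m| ≤ N := by
      rw [h1, norm_mul, Complex.norm_natCast] at h2
      have h4 : ‖(m : ℂ)‖ ≤ N := le_of_mul_le_mul_right h2 hq0
      rw [Complex.norm_intCast] at h4
      exact_mod_cast h4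
    simp only [F, map_prod]
    refine Finset.prod_eq_zero (Finset.mem_filter.2 ⟨Finset.mem_univ c, hkc⟩)
      (Finset.prod_eq_zero (Finset.mem_Icc.2 (abs_le.1 h3)) ?_)
    rw [map_sub, map_mul, MvPolynomial.eval_C, hmult _ _ (hsim z hz), hcf, h1, sub_self]
  -- evaluate at a diagonal matrix
  let d : L2 g → ℝ := Sum.elim (fun _ => (N + 1 : ℝ)) (fun _ => (N + 1 : ℝ)⁻¹)
  have hN1 : (0 : ℝ) < N + 1 := by positivity
  have hd : ∀ a, 0 < d a := by
    intro a
    rcases a with i | i
    · exact hN1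
    · exact inv_pos.2 hN1
  have hsimd : Sim col₀ 1 (Matrix.diagonal (fun a => (d a : ℂ))) := by
    refine ⟨?_, ?_⟩
    · ext r s
      rw [Matrix.diagonal_transpose, Matrix.mul_diagonal, Matrix.diagonal_mul, one_smul]
      have hN1' : ((N : ℂ) + 1) ≠ 0 := by
        have := hN1.ne'
        exact_mod_cast this
      rcases r with i | i <;> rcases s with j | j
      · rw [J_ll]; simp
      · rw [J_lr]
        simp only [d, Sum.elim_inl, Sum.elim_inr]
        push_cast
        field_simp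
      · rw [J_rl]
        simp only [d, Sum.elim_inl, Sum.elim_inr]
        push_cast
        field_simp
      · rw [J_rr]; simp
    · intro r s hrs
      rw [Matrix.diagonal_apply_ne]
      rintro rfl
      exact hrs rfl
  have h1 := hdense F hF 1 _ one_ne_zero hsimd
  simp only [F, map_prod] at h1
  rw [Finset.prod_eq_zero_iff] at h1
  obtain ⟨c, hkc, h1⟩ := h1
  have hk1 : 1 ≤ k c := (Finset.mem_filter.1 hkc).2
  rw [Finset.prod_eq_zero_iff] at h1
  obtain ⟨m, hm, h2⟩ := h1
  rw [map_sub, map_mul, MvPolynomial.eval_C, hmult _ _ hsimd, hcf, mul_one, sub_eq_zero,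
    block_diagonal, Matrix.charpoly_diagonal, ← card_block col c, coeff_prod _ (by
        rw [card_block]; exact hk2g c)] at h2
  have h3 : ‖(-1 : ℂ) ^ k c * ∑ t ∈ Finset.powersetCard (k c)
      (Finset.univ : Finset {r : L2 g // col (pr r) = c}),
      ∏ a ∈ t, (d a.1 : ℂ)‖ = ∑ t ∈ Finset.powersetCard (k c)
      (Finset.univ : Finset {r : L2 g // col (pr r) = c}), ∏ a ∈ t, d a.1 := by
    rw [norm_mul, norm_pow, norm_neg, norm_one, one_pow, one_mul]
    have h4 : ∑ t ∈ Finset.powersetCard (k c)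
        (Finset.univ : Finset {r : L2 g // col (pr r) = c}), ∏ a ∈ t, (d a.1 : ℂ) =
        ((∑ t ∈ Finset.powersetCard (k c)
          (Finset.univ : Finset {r : L2 g // col (pr r) = c}), ∏ a ∈ t, d a.1 : ℝ) : ℂ) := by
      push_cast
      rfl
    rw [h4, Complex.norm_real, Real.norm_eq_abs, abs_of_nonneg]
    exact Finset.sum_nonneg fun t _ => Finset.prod_nonneg fun a _ => (hd a.1).le
  rw [h2, Complex.norm_intCast] at h3
  have h4 : |(m : ℝ)| ≤ N := by
    have h5 := abs_le.2 (Finset.mem_Icc.1 hm)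
    exact_mod_cast h5
  -- a big term
  obtain ⟨t0, ht0sub, ht0⟩ : ∃ t0 ⊆ Finset.univ.filter (fun i : Fin g => col i = c),
      t0.card = k c := Finset.exists_subset_card_eq (hkg c)
  let emb : {i // i ∈ t0} ↪ {r : L2 g // col (pr r) = c} :=
    ⟨fun i => ⟨Sum.inl i.1, (Finset.mem_filter.1 (ht0sub i.2)).2⟩, fun i j hij =>
      Subtype.ext (Sum.inl.inj (congrArg Subtype.val hij))⟩
  have h5 : ((N : ℝ) + 1) ^ k c ≤ ∑ t ∈ Finset.powersetCard (k c)
      (Finset.univ : Finset {r : L2 g // col (pr r) = c}), ∏ a ∈ t, d a.1 := by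
    have h6 : (t0.attach.map emb) ∈ Finset.powersetCard (k c)
        (Finset.univ : Finset {r : L2 g // col (pr r) = c}) := by
      rw [Finset.mem_powersetCard]
      exact ⟨Finset.subset_univ _, by rw [Finset.card_map, Finset.card_attach, ht0]⟩
    refine le_trans (le_of_eq ?_) (Finset.single_le_sum (f := fun t => ∏ a ∈ t, d a.1)
      (fun t _ => Finset.prod_nonneg fun a _ => (hd a.1).le) h6)
    rw [Finset.prod_map]
    simp only [d, emb, Embedding.coeFn_mk, Sum.elim_inl, Finset.prod_const, Finset.card_attach,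
      ht0]
  have h6 : (N : ℝ) + 1 ≤ ((N : ℝ) + 1) ^ k c := by
    calc (N : ℝ) + 1 = ((N : ℝ) + 1) ^ 1 := (pow_one _).symm
      _ ≤ ((N : ℝ) + 1) ^ k c :=
        pow_le_pow_right₀ (by linarith [Nat.cast_nonneg (α := ℝ) N]) hk1
  linarith

end Auto

end Pool.Agent.Helper48.GC8
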