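import Pool.Agent.Helper48.GC8.Claim

/-!
# Symplectic eigenbases
-/

set_option autoImplicit false

namespace Pool.Agent.Helper48.GC8

open Function Polynomial

section Diag

variable {g : ℕ} {κ : Type} [DecidableEq κ]

/-- The symplectic form. -/
noncomputable abbrev B (g : ℕ) : LinearMap.BilinForm ℂ (L2 g → ℂ) :=
  Matrix.toBilin' (Matrix.J (Fin g) ℂ)

lemma B_skew (v w : L2 g → ℂ) : B g v w = - B g w v := by
  rw [Matrix.toBilin'_apply', Matrix.toBilin'_apply', Matrix.dotProduct_mulVec,
    ← Matrix.mulVec_transpose, Matrix.J_transpose, Matrix.neg_mulVec, neg_dotProduct,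
    dotProduct_comm]

lemma B_self (v : L2 g → ℂ) : B g v v = 0 := by
  have h := B_skew v v
  linear_combination (1 / 2 : ℂ) * h

omit [DecidableEq κ] in
lemma B_map {col : Fin g → κ} {q : ℂ} {M : Matrix (L2 g) (L2 g) ℂ} (hM : Sim col q M)
    (v w : L2 g → ℂ) :
    B g (M.mulVec v) (M.mulVec w) = q * B g v w := by
  rw [Matrix.toBilin'_apply', Matrix.toBilin'_apply', Matrix.mulVec_mulVec,
    Matrix.dotProduct_mulVec, Matrix.vecMul_mulVec, ← Matrix.mul_assoc]
  rw [hM.form]
  rw [← Matrix.dotProduct_mulVec, Matrix.smul_mulVec, dotProduct_smul, smul_eq_mul]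

lemma B_nondeg {w : L2 g → ℂ} (h : ∀ v, B g v w = 0) : w = 0 := by
  have h1 : (Matrix.J (Fin g) ℂ).mulVec w = 0 := by
    funext r
    have h2 := h (Pi.single r 1)
    rw [Matrix.toBilin'_apply', single_dotProduct, one_mul] at h2
    exact h2
  have h2 := congrArg (fun z => (Matrix.J (Fin g) ℂ).mulVec z) h1
  simp only [Matrix.mulVec_mulVec, Matrix.J_squared, Matrix.mulVec_zero, Matrix.neg_mulVec,
    Matrix.one_mulVec, neg_eq_zero] at h2
  exact h2

lemma J_zero {r s : L2 g} (h : pr r ≠ pr s) : Matrix.J (Fin g) ℂ r s = 0 := by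
  rcases r with i | i <;> rcases s with j | j <;>
    simp only [pr, Sum.elim_inl, Sum.elim_inr, id] at h <;> simp [Matrix.J, h]

/-- The vectors supported on the block with color `c`. -/
def Bk (col : Fin g → κ) (c : κ) (v : L2 g → ℂ) : Prop := ∀ s, col (pr s) ≠ c → v s = 0

omit [DecidableEq κ] in
lemma B_blk {col : Fin g → κ} {c d : κ} (hcd : c ≠ d) {v w : L2 g → ℂ} (hv : Bk col c v)
    (hw : Bk col d w) : B g v w = 0 := by
  rw [Matrix.toBilin'_apply]
  refine Finset.sum_eq_zero fun r _ => Finset.sum_eq_zero fun s _ => ?_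
  by_cases hrs : pr r = pr s
  · by_cases hr : col (pr r) = c
    · rw [hw s (by rw [← hrs, hr]; exact hcd), mul_zero]
    · rw [hv r hr, zero_mul, zero_mul]
  · rw [J_zero hrs, mul_zero, zero_mul]

lemma PB_mulVec (col : Fin g → κ) (c : κ) (v : L2 g → ℂ) (s : L2 g) :
    (PB col c).mulVec v s = if col (pr s) = c then v s else 0 := by
  rw [PB, Matrix.mulVec_diagonal]
  split_ifs <;> simp

lemma B_PB {col : Fin g → κ} {c : κ} {v : L2 g → ℂ} (hv : Bk col c v) (x : L2 g → ℂ) :
    B g ((PB col c).mulVec x) v = B g x v := by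
  rw [Matrix.toBilin'_apply, Matrix.toBilin'_apply]
  refine Finset.sum_congr rfl fun r _ => Finset.sum_congr rfl fun s _ => ?_
  rw [PB_mulVec]
  split_ifs with h
  · rfl
  · by_cases hrs : pr r = pr s
    · rw [hv s (by rw [← hrs]; exact h)]; ring
    · rw [J_zero hrs]; ring

/-- A symplectic eigenbasis, adapted to the blocks. -/
structure SE (col : Fin g → κ) (M : Matrix (L2 g) (L2 g) ℂ) (b : L2 g → (L2 g → ℂ))
    (lam : L2 g → ℂ) : Prop where
  form : ∀ r s, B g (b r) (b s) = Matrix.J (Fin g) ℂ r s
  eig : ∀ r, M.mulVec (b r) = lam r • b r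
  blk : ∀ r, Bk col (col (pr r)) (b r)

omit [DecidableEq κ] in
lemma SE.coarsen {κ' : Type} {col : Fin g → κ} {col' : Fin g → κ'}
    (hc : ∀ i j, col i = col j → col' i = col' j) {M : Matrix (L2 g) (L2 g) ℂ}
    {b : L2 g → (L2 g → ℂ)} {lam : L2 g → ℂ} (h : SE col M b lam) : SE col' M b lam :=
  ⟨h.form, h.eig, fun r s hs => h.blk r s (fun h' => hs (hc _ _ h'))⟩

lemma exists_partial {col : Fin g → κ} {q : ℂ} (hq : q ≠ 0) {M : Matrix (L2 g) (L2 g) ℂ}
    (hM : Sim col q M) {d : ℕ}
    (b0 : Module.Basis (Fin d) ℂ (L2 g → ℂ)) (l0 : Fin d → ℂ)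
    (hb0 : ∀ i, M.mulVec (b0 i) = l0 i • b0 i) (A : Finset (Fin g)) :
    ∃ (e f : Fin g → (L2 g → ℂ)) (α β : Fin g → ℂ), (∀ i ∈ A, ∀ j ∈ A, B g (e i) (e j) = 0) ∧
      (∀ i ∈ A, ∀ j ∈ A, B g (f i) (f j) = 0) ∧
      (∀ i ∈ A, ∀ j ∈ A, B g (f i) (e j) = if i = j then 1 else 0) ∧
      (∀ i ∈ A, M.mulVec (e i) = α i • e i) ∧ (∀ i ∈ A, M.mulVec (f i) = β i • f i) ∧
      (∀ i ∈ A, α i * β i = q) ∧ (∀ i ∈ A, Bk col (col i) (e i)) ∧
      ∀ i ∈ A, Bk col (col i) (f i) := by
  classical
  induction A using Finset.induction_on with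
  | empty =>
    exact ⟨fun _ => 0, fun _ => 0, fun _ => 0, fun _ => 0, by simp, by simp, by simp, by simp,
      by simp, by simp, by simp, by simp⟩
  | insert i0 A hi0 ih =>
    obtain ⟨e, f, α, β, hee, hff, hfe, he, hf, hαβ, heb, hfb⟩ := ih
    have hef : ∀ i ∈ A, ∀ j ∈ A, B g (e i) (f j) = if i = j then -1 else 0 := by
      intro i hi j hj
      rw [B_skew, hfe j hj i hi]
      by_cases h : i = j
      · rw [if_pos h, if_pos h.symm]
      · rw [if_neg h, if_neg (Ne.symm h), neg_zero]
    let P : (L2 g → ℂ) → (L2 g → ℂ) := fun v =>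
      v - ∑ i ∈ A, (B g (f i) v • e i - B g (e i) v • f i)
    have hPe : ∀ j ∈ A, ∀ v, B g (e j) (P v) = 0 := by
      intro j hj v
      simp only [P, map_sub, map_sum, map_smul, smul_eq_mul]
      have h1 : ∑ i ∈ A, (B g (f i) v * B g (e j) (e i) - B g (e i) v * B g (e j) (f i)) =
          B g (e j) v := by
        rw [Finset.sum_eq_single_of_mem j hj]
        · rw [hee j hj j hj, hef j hj j hj, if_pos rfl]; ring
        · intro i hi hij
          rw [hee j hj i hi, hef j hj i hi, if_neg (Ne.symm hij)]; ring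
      rw [h1, sub_self]
    have hPf : ∀ j ∈ A, ∀ v, B g (f j) (P v) = 0 := by
      intro j hj v
      simp only [P, map_sub, map_sum, map_smul, smul_eq_mul]
      have h1 : ∑ i ∈ A, (B g (f i) v * B g (f j) (e i) - B g (e i) v * B g (f j) (f i)) =
          B g (f j) v := by
        rw [Finset.sum_eq_single_of_mem j hj]
        · rw [hff j hj j hj, hfe j hj j hj, if_pos rfl]; ring
        · intro i hi hij
          rw [hff j hj i hi, hfe j hj i hi, if_neg (Ne.symm hij)]; ring
      rw [h1, sub_self]
    have hPM : ∀ (v : L2 g → ℂ) (c : ℂ), M.mulVec v = c • v → M.mulVec (P v) = c • P v := by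
      intro v c hv
      have h1 : ∀ i ∈ A, B g (f i) v • M.mulVec (e i) = c • (B g (f i) v • e i) := by
        intro i hi
        have h2 := B_map hM (f i) v
        rw [hf i hi, hv] at h2
        simp only [map_smul, LinearMap.smul_apply, smul_eq_mul] at h2
        rw [he i hi, smul_smul, smul_smul]
        congr 1
        have h3 : β i ≠ 0 := by
          intro h0
          have := hαβ i hi
          rw [h0, mul_zero] at this
          exact hq this.symm
        apply mul_left_cancel₀ h3
        linear_combination (B g (f i) v) * hαβ i hi - h2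
      have h2 : ∀ i ∈ A, B g (e i) v • M.mulVec (f i) = c • (B g (e i) v • f i) := by
        intro i hi
        have h2 := B_map hM (e i) v
        rw [he i hi, hv] at h2
        simp only [map_smul, LinearMap.smul_apply, smul_eq_mul] at h2
        rw [hf i hi, smul_smul, smul_smul]
        congr 1
        have h3 : α i ≠ 0 := by
          intro h0
          have := hαβ i hi
          rw [h0, zero_mul] at this
          exact hq this.symm
        apply mul_left_cancel₀ h3
        linear_combination (B g (e i) v) * hαβ i hi - h2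
      have h3 : M.mulVec (P v) = M.mulVec v -
          ∑ i ∈ A, (B g (f i) v • M.mulVec (e i) - B g (e i) v • M.mulVec (f i)) := by
        simp only [P, ← Matrix.mulVecLin_apply, map_sub, map_sum, map_smul]
      rw [h3, hv]
      simp only [P, smul_sub, Finset.smul_sum]
      congr 1
      refine Finset.sum_congr rfl fun i hi => ?_
      rw [h1 i hi, h2 i hi]
    have hPblk : ∀ v, Bk col (col i0) v → Bk col (col i0) (P v) := by
      intro v hv s hs
      simp only [P, Pi.sub_apply, Finset.sum_apply, Pi.smul_apply, smul_eq_mul]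
      rw [hv s hs, Finset.sum_eq_zero, sub_zero]
      intro i hi
      by_cases hc : col i = col i0
      · rw [heb i hi s (by rw [hc]; exact hs), hfb i hi s (by rw [hc]; exact hs)]; ring
      · rw [B_blk hc (hfb i hi) hv, B_blk hc (heb i hi) hv]; ring
    have hvb : ∀ x, Bk col (col i0) ((PB col (col i0)).mulVec x) := by
      intro x s hs
      rw [PB_mulVec, if_neg hs]
    have hvM : ∀ j, M.mulVec ((PB col (col i0)).mulVec (b0 j)) =
        l0 j • (PB col (col i0)).mulVec (b0 j) := by
      intro j
      rw [Matrix.mulVec_mulVec, hM.comm, ← Matrix.mulVec_mulVec, hb0, Matrix.mulVec_smul]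
    -- a new eigenvector
    obtain ⟨j, hj⟩ : ∃ j, P ((PB col (col i0)).mulVec (b0 j)) ≠ 0 := by
      by_contra hcon
      push Not at hcon
      let A' : Finset (Fin g) := A.filter (fun i => col i = col i0)
      let F : A' ⊕ A' → (L2 g → ℂ) := Sum.elim (fun i => e i.1) (fun i => f i.1)
      have h1 : ∀ j, (PB col (col i0)).mulVec (b0 j) ∈ Submodule.span ℂ (Set.range F) := by
        intro j
        have h2 := hcon j
        simp only [P, sub_eq_zero] at h2
        rw [h2]
        refine Submodule.sum_mem _ fun i hi => ?_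
        by_cases hc : col i = col i0
        · have hi' : i ∈ A' := Finset.mem_filter.2 ⟨hi, hc⟩
          refine Submodule.sub_mem _ ?_ ?_
          · exact Submodule.smul_mem _ _ (Submodule.subset_span ⟨Sum.inl ⟨i, hi'⟩, rfl⟩)
          · exact Submodule.smul_mem _ _ (Submodule.subset_span ⟨Sum.inr ⟨i, hi'⟩, rfl⟩)
        · rw [B_blk hc (hfb i hi) (hvb _), B_blk hc (heb i hi) (hvb _), zero_smul, zero_smul,
            sub_zero]
          exact Submodule.zero_mem _
      let T := {r : L2 g // col (pr r) = col i0}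
      let G : T → (L2 g → ℂ) := fun r => Pi.single r.1 1
      have hG : LinearIndependent ℂ G := by
        have h2 := (Pi.basisFun ℂ (L2 g)).linearIndependent.comp (Subtype.val : T → L2 g)
          Subtype.val_injective
        convert h2 using 1
        funext r
        simp [G]
      have h2 : Submodule.span ℂ (Set.range G) ≤ Submodule.span ℂ (Set.range F) := by
        refine Submodule.span_le.2 ?_
        rintro _ ⟨r, rfl⟩
        have h3 : G r = (PB col (col i0)).mulVec (G r) := by
          funext s
          rw [PB_mulVec]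
          by_cases hs : col (pr s) = col i0
          · rw [if_pos hs]
          · rw [if_neg hs]
            have : s ≠ r.1 := by rintro rfl; exact hs r.2
            simp [G, Pi.single_eq_of_ne this]
        rw [h3]
        have h4 : G r ∈ Submodule.span ℂ (Set.range b0) := by rw [b0.span_eq]; trivial
        have h5 : Submodule.span ℂ (Set.range b0) ≤
            (Submodule.span ℂ (Set.range F)).comap (PB col (col i0)).mulVecLin := by
          refine Submodule.span_le.2 ?_
          rintro _ ⟨j, rfl⟩
          exact h1 j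
        exact h5 h4
      have h3 := Submodule.finrank_mono h2
      rw [finrank_span_eq_card hG] at h3
      have h4 := finrank_range_le_card (R := ℂ) F
      rw [Set.finrank] at h4
      have h5 : Fintype.card (A' ⊕ A') = 2 * A'.card := by
        rw [Fintype.card_sum, Fintype.card_coe]; ring
      have h6 : 2 * (A'.card + 1) ≤ Fintype.card T := by
        have h7 : i0 ∉ A' := fun h => hi0 (Finset.mem_filter.1 h).1
        have hcol : ∀ i ∈ insert i0 A', col i = col i0 := by
          intro i hi
          rcases Finset.mem_insert.1 hi with rfl | hi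
          · rfl
          · exact (Finset.mem_filter.1 hi).2
        let φ : (insert i0 A' : Finset (Fin g)) ⊕ (insert i0 A' : Finset (Fin g)) → T :=
          Sum.elim (fun i => ⟨Sum.inl i.1, hcol i.1 i.2⟩) (fun i => ⟨Sum.inr i.1, hcol i.1 i.2⟩)
        have hφ : Injective φ := by
          intro x y hxy
          rcases x with x | x <;> rcases y with y | y
          · have h8 := congrArg Subtype.val hxy
            simp only [φ, Sum.elim_inl] at h8
            exact congrArg Sum.inl (Subtype.ext (Sum.inl.inj h8))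
          · have h8 := congrArg Subtype.val hxy
            simp [φ] at h8
          · have h8 := congrArg Subtype.val hxy
            simp [φ] at h8
          · have h8 := congrArg Subtype.val hxy
            simp only [φ, Sum.elim_inr] at h8
            exact congrArg Sum.inr (Subtype.ext (Sum.inr.inj h8))
        have h9 := Fintype.card_le_of_injective φ hφ
        rw [Fintype.card_sum, Fintype.card_coe, Finset.card_insert_of_notMem h7] at h9
        omega
      omega
    set v := P ((PB col (col i0)).mulVec (b0 j)) with hv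
    have hve : ∀ i ∈ A, B g (e i) v = 0 := fun i hi => hPe i hi _
    have hvf : ∀ i ∈ A, B g (f i) v = 0 := fun i hi => hPf i hi _
    have hvM' : M.mulVec v = l0 j • v := hPM _ _ (hvM j)
    have hvblk : Bk col (col i0) v := hPblk _ (hvb _)
    obtain ⟨j', hj'⟩ : ∃ j', B g (b0 j') v ≠ 0 := by
      by_contra hcon
      push Not at hcon
      apply hj
      apply B_nondeg
      intro y
      have h1 : y ∈ Submodule.span ℂ (Set.range b0) := by rw [b0.span_eq]; trivial
      induction h1 using Submodule.span_induction with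
      | mem x hx => obtain ⟨i, rfl⟩ := hx; exact hcon i
      | zero => simp
      | add x y _ _ hx hy => rw [map_add, LinearMap.add_apply, hx, hy, add_zero]
      | smul c x _ hx => rw [map_smul, LinearMap.smul_apply, hx, smul_zero]
    set x0 := (PB col (col i0)).mulVec (b0 j') with hx0
    have hx0v : B g x0 v = B g (b0 j') v := B_PB hvblk _
    have hPv : B g (P x0) v = B g (b0 j') v := by
      rw [← hx0v]
      simp only [P, map_sub, map_sum, map_smul, LinearMap.sub_apply, LinearMap.sum_apply,
        LinearMap.smul_apply]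
      rw [Finset.sum_eq_zero, sub_zero]
      intro i hi
      rw [hve i hi, hvf i hi, smul_zero, smul_zero, sub_zero]
    set w := (B g (b0 j') v)⁻¹ • P x0 with hw
    have hwv : B g w v = 1 := by
      rw [hw, map_smul, LinearMap.smul_apply, hPv, smul_eq_mul, inv_mul_cancel₀ hj']
    have hwM : M.mulVec w = l0 j' • w := by
      rw [hw, Matrix.mulVec_smul, hPM _ _ (hvM j'), smul_comm]
    have hwe : ∀ i ∈ A, B g (e i) w = 0 := fun i hi => by
      rw [hw, map_smul, hPe i hi, smul_zero]
    have hwf : ∀ i ∈ A, B g (f i) w = 0 := fun i hi => by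
      rw [hw, map_smul, hPf i hi, smul_zero]
    have hwblk : Bk col (col i0) w := by
      intro s hs
      rw [hw, Pi.smul_apply, hPblk _ (hvb _) s hs, smul_zero]
    have hne : ∀ i ∈ A, i ≠ i0 := fun i hi h => hi0 (h ▸ hi)
    refine ⟨update e i0 v, update f i0 w, update α i0 (l0 j), update β i0 (l0 j'), ?_, ?_, ?_, ?_,
      ?_, ?_, ?_, ?_⟩
    · intro a ha b hb
      rcases Finset.mem_insert.1 ha with ha' | ha' <;> rcases Finset.mem_insert.1 hb with hb' | hb'
      · rw [ha', hb', update_self]; exact B_self v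
      · rw [ha', update_self, update_of_ne (hne b hb'), B_skew, hve b hb', neg_zero]
      · rw [hb', update_self, update_of_ne (hne a ha'), hve a ha']
      · rw [update_of_ne (hne a ha'), update_of_ne (hne b hb'), hee a ha' b hb']
    · intro a ha b hb
      rcases Finset.mem_insert.1 ha with ha' | ha' <;> rcases Finset.mem_insert.1 hb with hb' | hb'
      · rw [ha', hb', update_self]; exact B_self w
      · rw [ha', update_self, update_of_ne (hne b hb'), B_skew, hwf b hb', neg_zero]
      · rw [hb', update_self, update_of_ne (hne a ha'), hwf a ha']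
      · rw [update_of_ne (hne a ha'), update_of_ne (hne b hb'), hff a ha' b hb']
    · intro a ha b hb
      rcases Finset.mem_insert.1 ha with ha' | ha' <;> rcases Finset.mem_insert.1 hb with hb' | hb'
      · rw [ha', hb', update_self, update_self, if_pos rfl]; exact hwv
      · rw [ha', update_self, update_of_ne (hne b hb'), if_neg (Ne.symm (hne b hb')), B_skew,
          hwe b hb', neg_zero]
      · rw [hb', update_self, update_of_ne (hne a ha'), if_neg (hne a ha'), hvf a ha']
      · rw [update_of_ne (hne a ha'), update_of_ne (hne b hb'), hfe a ha' b hb']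
    · intro a ha
      rcases Finset.mem_insert.1 ha with ha' | ha'
      · rw [ha', update_self, update_self]; exact hvM'
      · rw [update_of_ne (hne a ha'), update_of_ne (hne a ha')]; exact he a ha'
    · intro a ha
      rcases Finset.mem_insert.1 ha with ha' | ha'
      · rw [ha', update_self, update_self]; exact hwM
      · rw [update_of_ne (hne a ha'), update_of_ne (hne a ha')]; exact hf a ha'
    · intro a ha
      rcases Finset.mem_insert.1 ha with ha' | ha'
      · rw [ha', update_self, update_self]
        have h1 := B_map hM w v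
        rw [hwM, hvM', hwv] at h1
        simp only [map_smul, LinearMap.smul_apply, smul_eq_mul, hwv] at h1
        linear_combination h1
      · rw [update_of_ne (hne a ha'), update_of_ne (hne a ha')]; exact hαβ a ha'
    · intro a ha
      rcases Finset.mem_insert.1 ha with ha' | ha'
      · rw [ha', update_self]; exact hvblk
      · rw [update_of_ne (hne a ha')]; exact heb a ha'
    · intro a ha
      rcases Finset.mem_insert.1 ha with ha' | ha'
      · rw [ha', update_self]; exact hwblk
      · rw [update_of_ne (hne a ha')]; exact hfb a ha'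

lemma J_ll (i j : Fin g) : Matrix.J (Fin g) ℂ (Sum.inl i) (Sum.inl j) = 0 := by
  simp [Matrix.J]

lemma J_rr (i j : Fin g) : Matrix.J (Fin g) ℂ (Sum.inr i) (Sum.inr j) = 0 := by
  simp [Matrix.J]

lemma J_lr (i j : Fin g) :
    Matrix.J (Fin g) ℂ (Sum.inl i) (Sum.inr j) = if i = j then -1 else 0 := by
  simp only [Matrix.J, Matrix.fromBlocks_apply₁₂, Matrix.neg_apply, Matrix.one_apply]
  split_ifs <;> simp

lemma J_rl (i j : Fin g) :
    Matrix.J (Fin g) ℂ (Sum.inr i) (Sum.inl j) = if i = j then 1 else 0 := by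
  simp only [Matrix.J, Matrix.fromBlocks_apply₂₁, Matrix.one_apply]

lemma exists_SE {col : Fin g → κ} {q : ℂ} (hq : q ≠ 0) {M : Matrix (L2 g) (L2 g) ℂ}
    (hM : Sim col q M) {d : ℕ}
    (b0 : Module.Basis (Fin d) ℂ (L2 g → ℂ)) (l0 : Fin d → ℂ)
    (hb0 : ∀ i, M.mulVec (b0 i) = l0 i • b0 i) :
    ∃ b lam, SE col M b lam := by
  obtain ⟨e, f, α, β, hee, hff, hfe, he, hf, -, heb, hfb⟩ :=
    exists_partial hq hM b0 l0 hb0 Finset.univ
  refine ⟨Sum.elim e f, Sum.elim α β, ?_, ?_, ?_⟩
  · intro r s
    rcases r with i | i <;> rcases s with j | j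
    · rw [J_ll]; exact hee i (Finset.mem_univ _) j (Finset.mem_univ _)
    · rw [J_lr, Sum.elim_inl, Sum.elim_inr, B_skew, hfe j (Finset.mem_univ _) i (Finset.mem_univ _)]
      by_cases h : i = j
      · rw [if_pos h, if_pos h.symm]
      · rw [if_neg h, if_neg (Ne.symm h), neg_zero]
    · rw [J_rl]; exact hfe i (Finset.mem_univ _) j (Finset.mem_univ _)
    · rw [J_rr]; exact hff i (Finset.mem_univ _) j (Finset.mem_univ _)
  · intro r
    rcases r with i | i
    · exact he i (Finset.mem_univ _)
    · exact hf i (Finset.mem_univ _)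
  · intro r
    rcases r with i | i
    · exact heb i (Finset.mem_univ _)
    · exact hfb i (Finset.mem_univ _)

omit [DecidableEq κ] in
lemma SE.mul_eq {col : Fin g → κ} {q : ℂ} {M : Matrix (L2 g) (L2 g) ℂ} (hM : Sim col q M)
    {b : L2 g → (L2 g → ℂ)}
    {lam : L2 g → ℂ} (h : SE col M b lam) (i : Fin g) :
    lam (Sum.inl i) * lam (Sum.inr i) = q := by
  have h1 := B_map hM (b (Sum.inr i)) (b (Sum.inl i))
  rw [h.eig, h.eig] at h1
  simp only [map_smul, LinearMap.smul_apply, smul_eq_mul, h.form, J_rl, if_true] at h1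
  linear_combination h1

lemma pr_swap (r : L2 g) : pr r.swap = pr r := by
  rcases r with i | i <;> rfl

omit [DecidableEq κ] in
/-- Signed permutations of a symplectic eigenbasis. -/
lemma SE.perm {col : Fin g → κ} {M : Matrix (L2 g) (L2 g) ℂ} {b : L2 g → (L2 g → ℂ)}
    {lam : L2 g → ℂ} (h : SE col M b lam) (ε : Fin g → L2 g) (hε : Injective (fun i => pr (ε i)))
    (hcol : ∀ i, col (pr (ε i)) = col i) :
    ∃ b' lam', SE col M b' lam' ∧ ∀ i, lam' (Sum.inl i) = lam (ε i) := by
  have hne : ∀ i j, i ≠ j → pr (ε i) ≠ pr (ε j) := fun i j hij h => hij (hε h)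
  refine ⟨Sum.elim (fun i => b (ε i)) (fun i => Sum.elim (fun m => b (Sum.inr m))
    (fun m => - b (Sum.inl m)) (ε i)), Sum.elim (fun i => lam (ε i)) (fun i => lam (ε i).swap),
    ⟨?_, ?_, ?_⟩, fun i => rfl⟩
  · intro r s
    rcases r with i | i <;> rcases s with j | j
    · rw [J_ll, Sum.elim_inl, Sum.elim_inl, h.form]
      by_cases hij : i = j
      · subst hij
        rcases ε i with m | m
        · exact J_ll _ _
        · exact J_rr _ _
      · exact J_zero (hne i j hij)
    · rw [J_lr, Sum.elim_inl, Sum.elim_inr]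
      by_cases hij : i = j
      · subst hij
        rw [if_pos rfl]
        rcases ε i with m | m
        · rw [Sum.elim_inl, h.form, J_lr, if_pos rfl]
        · rw [Sum.elim_inr, map_neg, h.form, J_rl, if_pos rfl]
      · rw [if_neg hij]
        have h1 := hne i j hij
        rcases hi : ε i with m | m <;> rcases hj : ε j with n | n <;> rw [hi, hj] at h1 <;>
          simp only [pr, Sum.elim_inl, Sum.elim_inr, id] at h1 ⊢
        · rw [h.form, J_lr, if_neg h1]
        · rw [map_neg, h.form, J_ll, neg_zero]
        · rw [h.form, J_rr]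
        · rw [map_neg, h.form, J_rl, if_neg h1, neg_zero]
    · rw [J_rl, Sum.elim_inl, Sum.elim_inr]
      by_cases hij : i = j
      · subst hij
        rw [if_pos rfl]
        rcases ε i with m | m
        · rw [Sum.elim_inl, h.form, J_rl, if_pos rfl]
        · rw [Sum.elim_inr, map_neg, LinearMap.neg_apply, h.form, J_lr, if_pos rfl, neg_neg]
      · rw [if_neg hij]
        have h1 := hne i j hij
        rcases hi : ε i with m | m <;> rcases hj : ε j with n | n <;> rw [hi, hj] at h1 <;>
          simp only [pr, Sum.elim_inl, Sum.elim_inr, id] at h1 ⊢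
        · rw [h.form, J_rl, if_neg h1]
        · rw [h.form, J_rr]
        · rw [map_neg, LinearMap.neg_apply, h.form, J_ll, neg_zero]
        · rw [map_neg, LinearMap.neg_apply, h.form, J_lr, if_neg h1, neg_zero]
    · rw [J_rr, Sum.elim_inr, Sum.elim_inr]
      by_cases hij : i = j
      · subst hij
        exact B_self _
      · have h1 := hne i j hij
        rcases hi : ε i with m | m <;> rcases hj : ε j with n | n <;> rw [hi, hj] at h1 <;>
          simp only [pr, Sum.elim_inl, Sum.elim_inr, id] at h1 ⊢
        · rw [h.form, J_rr]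
        · rw [map_neg, h.form, J_rl, if_neg h1, neg_zero]
        · rw [map_neg, LinearMap.neg_apply, h.form, J_lr, if_neg h1, neg_zero]
        · rw [map_neg, map_neg, LinearMap.neg_apply, h.form, J_ll]; simp
  · intro r
    rcases r with i | i
    · exact h.eig _
    · simp only [Sum.elim_inr]
      rcases hi : ε i with m | m
      · simp only [Sum.elim_inl, Sum.swap_inl]
        exact h.eig _
      · simp only [Sum.elim_inr, Sum.swap_inr]
        rw [Matrix.mulVec_neg, h.eig, smul_neg]
  · intro r
    rcases r with i | i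
    · have h1 := h.blk (ε i)
      rw [hcol i] at h1
      exact h1
    · have h1 := hcol i
      simp only [Sum.elim_inr]
      rcases hi : ε i with m | m
      · rw [hi] at h1
        have h2 := h.blk (Sum.inr m)
        intro s hs
        rw [Sum.elim_inl]
        refine h2 s ?_
        intro h3
        exact hs (h3.trans h1)
      · rw [hi] at h1
        have h2 := h.blk (Sum.inl m)
        intro s hs
        rw [Sum.elim_inr, Pi.neg_apply, h2 s ?_, neg_zero]
        intro h3
        exact hs (h3.trans h1)

/-- The base change matrix of a symplectic eigenbasis. -/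
def SE.mat (b : L2 g → (L2 g → ℂ)) : Matrix (L2 g) (L2 g) ℂ := Matrix.of fun x r => b r x

omit [DecidableEq κ] in
lemma SE.sim {col : Fin g → κ} {M : Matrix (L2 g) (L2 g) ℂ} {b : L2 g → (L2 g → ℂ)}
    {lam : L2 g → ℂ} (h : SE col M b lam) : Sim col 1 (SE.mat b) := by
  refine ⟨?_, ?_⟩
  · ext r s
    rw [one_smul, ← h.form r s, Matrix.toBilin'_apply]
    simp only [Matrix.mul_apply, Matrix.transpose_apply, SE.mat, Matrix.of_apply, Finset.sum_mul]
    exact Finset.sum_comm
  · intro r s hrs
    exact h.blk s r hrs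

omit [DecidableEq κ] in
lemma SE.mul_mat {col : Fin g → κ} {M : Matrix (L2 g) (L2 g) ℂ} {b : L2 g → (L2 g → ℂ)}
    {lam : L2 g → ℂ} (h : SE col M b lam) :
    M * SE.mat b = SE.mat b * Matrix.diagonal lam := by
  ext a r
  rw [Matrix.mul_diagonal]
  have := congrFun (h.eig r) a
  rw [Pi.smul_apply, smul_eq_mul] at this
  simp only [SE.mat, Matrix.of_apply]
  rw [mul_comm (b r a), ← this]
  simp only [Matrix.mul_apply, Matrix.mulVec, dotProduct, Matrix.of_apply]

omit [DecidableEq κ] in
lemma SE.exists_inv {col : Fin g → κ} {M : Matrix (L2 g) (L2 g) ℂ} {b : L2 g → (L2 g → ℂ)}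
    {lam : L2 g → ℂ} (h : SE col M b lam) :
    ∃ S' : Matrix (L2 g) (L2 g) ℂ, S' * SE.mat b = 1 := by
  refine ⟨-(Matrix.J (Fin g) ℂ * (SE.mat b).transpose * Matrix.J (Fin g) ℂ), ?_⟩
  rw [Matrix.neg_mul, Matrix.mul_assoc, Matrix.mul_assoc, ← Matrix.mul_assoc (SE.mat b).transpose,
    h.sim.form, one_smul, Matrix.J_squared, neg_neg]

end Diag

section Transport

variable {ι : Type} [Fintype ι] [DecidableEq ι] {g : ℕ} {κ : Type}

/-- The eigenvalues seen by the support of an element of a good stable subspace. -/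
lemma integral_of_SE {col : Fin g → κ} {𝓕 : Set (ℕ × Matrix (L2 g) (L2 g) ℂ)} {R : Finset ι}
    {t : ℕ} {U : Submodule ℂ (Ten ι (L2 g))} (hst : Stab col R U) (hgood : Good 𝓕 R t U)
    {z : ℕ × Matrix (L2 g) (L2 g) ℂ} (hz : z ∈ 𝓕) {b : L2 g → (L2 g → ℂ)} {lam : L2 g → ℂ}
    (h : SE col z.2 b lam) {u : Ten ι (L2 g)} (hu : u ∈ U) {x : ι → L2 g} (hx : u x ≠ 0) :
    IsIntegral ℤ ((∏ k ∈ R, lam (x k)) / (z.1 : ℂ) ^ t) := by
  obtain ⟨Q, hQ1, hQ2⟩ := hgood z hz
  apply hQ1
  have h1 := hQ2 _ (hst 1 (SE.mat b) one_ne_zero h.sim u hu)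
  have h2 := aeval_semiconj (rho R (SE.mat b)) (rho R (Matrix.diagonal lam)) (rho R z.2)
    (fun v => by
      rw [← Module.End.mul_apply, ← Module.End.mul_apply, ← rho_mul, ← rho_mul, h.mul_mat]) Q u
  rw [h1] at h2
  obtain ⟨S', hS'⟩ := h.exists_inv
  have h3 : aeval (rho R (Matrix.diagonal lam)) Q u = 0 := by
    have h4 := congrArg (rho R S') h2
    rw [← Module.End.mul_apply, ← rho_mul, hS', rho_one, map_zero] at h4
    exact h4
  let ev : Ten ι (L2 g) →ₗ[ℂ] ℂ := LinearMap.proj x
  have h4 := aeval_semiconj ev (rho R (Matrix.diagonal lam))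
    (algebraMap ℂ (Module.End ℂ ℂ) (∏ k ∈ R, lam (x k))) (fun v => by
      simp only [ev, LinearMap.proj_apply]
      rw [rho_diag]
      simp) Q u
  rw [h3, map_zero, aeval_algebraMap_apply] at h4
  have h5 : eval (∏ k ∈ R, lam (x k)) Q * u x = 0 := by
    have h6 := h4.symm
    simpa [ev, Polynomial.aeval_def] using h6
  rw [mul_eq_zero] at h5
  exact h5.resolve_right hx

end Transport

end Pool.Agent.Helper48.GC8
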