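import Mathlib

/-!
# Tensors as functions on words: actions of matrices, contractions, insertions

`Ten ι I = (ι → I) → ℂ` is the tensor power `(ℂ^I)^{⊗ι}`.
-/

set_option autoImplicit false

namespace Pool.Agent.Helper48.GC8

open Function

/-- Coordinates of a tensor in `(ℂ^I)^{⊗ι}`. -/
abbrev Ten (ι I : Type) : Type := (ι → I) → ℂ

section Basic

variable {ι I : Type} [Fintype ι] [DecidableEq ι] [Fintype I] [DecidableEq I]

/-- The matrix `Z k` acts at the position `k`. -/
noncomputable def act (Z : ι → Matrix I I ℂ) : Module.End ℂ (Ten ι I) where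
  toFun u := fun x => ∑ y, (∏ k, Z k (x k) (y k)) * u y
  map_add' u v := by
    funext x
    simp [mul_add, Finset.sum_add_distrib]
  map_smul' c u := by
    funext x
    simp only [Pi.smul_apply, smul_eq_mul, RingHom.id_apply, Finset.mul_sum]
    exact Finset.sum_congr rfl fun y _ => by ring

omit [DecidableEq I] in
lemma act_apply (Z : ι → Matrix I I ℂ) (u : Ten ι I) (x : ι → I) :
    act Z u x = ∑ y, (∏ k, Z k (x k) (y k)) * u y := rfl

omit [DecidableEq I] in
lemma act_mul (Z Z' : ι → Matrix I I ℂ) : act (Z * Z') = act Z * act Z' := by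
  refine LinearMap.ext fun u => funext fun x => ?_
  rw [Module.End.mul_apply, act_apply, act_apply]
  simp only [act_apply, Finset.mul_sum]
  rw [Finset.sum_comm]
  refine Finset.sum_congr rfl fun z _ => ?_
  have h1 : ∏ k, (Z * Z') k (x k) (z k) = ∑ y : ι → I, ∏ k, Z k (x k) (y k) * Z' k (y k) (z k) := by
    simp only [Pi.mul_apply, Matrix.mul_apply]
    rw [Finset.prod_univ_sum]
    simp
  rw [h1, Finset.sum_mul]
  refine Finset.sum_congr rfl fun y _ => ?_
  rw [Finset.prod_mul_distrib]
  ring

/-- The matrix `Y` at the position `a`, the identity elsewhere. -/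
def ms (a : ι) (Y : Matrix I I ℂ) : ι → Matrix I I ℂ := fun k => if k = a then Y else 1

omit [Fintype ι] [Fintype I] in
lemma ms_self (a : ι) (Y : Matrix I I ℂ) : ms a Y a = Y := by simp [ms]

omit [Fintype ι] [Fintype I] in
lemma ms_ne {a k : ι} (hk : k ≠ a) (Y : Matrix I I ℂ) : ms a Y k = 1 := by simp [ms, hk]

/-- The formula for the action at one position. -/
lemma act_single (a : ι) (Y : Matrix I I ℂ) (u : Ten ι I) (x : ι → I) :
    act (ms a Y) u x = ∑ r, Y (x a) r * u (update x a r) := by
  rw [act_apply]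
  symm
  refine Fintype.sum_of_injective (fun r => update x a r) (update_injective x a) _ _ ?_ ?_
  · intro y hy
    have h1 : ∃ k, k ≠ a ∧ x k ≠ y k := by
      by_contra hcon
      push Not at hcon
      apply hy
      refine ⟨y a, ?_⟩
      funext k
      by_cases hk : k = a
      · subst hk; simp
      · simp [hk, hcon k hk]
    obtain ⟨k, hk, hxy⟩ := h1
    have h2 : ms a Y k (x k) (y k) = 0 := by
      rw [ms_ne hk]
      exact Matrix.one_apply_ne hxy
    rw [Finset.prod_eq_zero (Finset.mem_univ k) h2, zero_mul]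
  · intro r
    have h1 : ∏ k, ms a Y k (x k) (update x a r k) = Y (x a) r := by
      rw [Finset.prod_eq_single a]
      · rw [ms_self, update_self]
      · intro k _ hk
        rw [ms_ne hk, update_of_ne hk]
        exact Matrix.one_apply_eq _
      · intro h
        exact absurd (Finset.mem_univ a) h
    rw [h1]

/-- The diagonal action on the positions in `R`. -/
noncomputable def rho (R : Finset ι) (X : Matrix I I ℂ) : Module.End ℂ (Ten ι I) :=
  act (fun k => if k ∈ R then X else 1)

lemma rho_mul (R : Finset ι) (X Y : Matrix I I ℂ) : rho R (X * Y) = rho R X * rho R Y := by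
  unfold rho
  rw [← act_mul]
  congr 1
  funext k
  by_cases hk : k ∈ R <;> simp [hk]

lemma act_one : act (1 : ι → Matrix I I ℂ) = (1 : Module.End ℂ (Ten ι I)) := by
  refine LinearMap.ext fun u => funext fun x => ?_
  rw [act_apply, Finset.sum_eq_single x]
  · simp
  · intro y _ hy
    obtain ⟨k, hk⟩ : ∃ k, y k ≠ x k := by
      by_contra hcon
      push Not at hcon
      exact hy (funext hcon)
    rw [Finset.prod_eq_zero (Finset.mem_univ k), zero_mul]
    simp only [Pi.one_apply]
    exact Matrix.one_apply_ne (Ne.symm hk)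
  · simp

lemma rho_one (R : Finset ι) : rho R (1 : Matrix I I ℂ) = 1 := by
  unfold rho
  rw [← act_one]
  congr 1
  funext k
  simp

lemma rho_apply (R : Finset ι) (X : Matrix I I ℂ) (u : Ten ι I) (x : ι → I) :
    rho R X u x = ∑ y, (∏ k, (if k ∈ R then X else 1) (x k) (y k)) * u y := rfl

lemma rho_diag (R : Finset ι) (d : I → ℂ) (u : Ten ι I) (x : ι → I) :
    rho R (Matrix.diagonal d) u x = (∏ k ∈ R, d (x k)) * u x := by
  rw [rho_apply, Finset.sum_eq_single x]
  · congr 1
    rw [← Finset.prod_filter_mul_prod_filter_not Finset.univ (fun k => k ∈ R)]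
    have h1 : ∏ k ∈ Finset.univ.filter (fun k => k ∉ R),
        (if k ∈ R then Matrix.diagonal d else 1) (x k) (x k) = 1 := by
      refine Finset.prod_eq_one fun k hk => ?_
      simp [(Finset.mem_filter.1 hk).2]
    rw [h1, mul_one]
    have h2 : Finset.univ.filter (fun k => k ∈ R) = R := by ext; simp
    rw [h2]
    refine Finset.prod_congr rfl fun k hk => ?_
    simp [hk]
  · intro y _ hy
    obtain ⟨k, hk⟩ : ∃ k, y k ≠ x k := by
      by_contra hcon
      push Not at hcon
      exact hy (funext hcon)
    rw [Finset.prod_eq_zero (Finset.mem_univ k), zero_mul]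
    by_cases hkR : k ∈ R
    · simp only [hkR, if_true]
      exact Matrix.diagonal_apply_ne _ (Ne.symm hk)
    · simp only [hkR, if_false]
      exact Matrix.one_apply_ne (Ne.symm hk)
  · simp

/-- Substitution of the letter `r` at the position `a`. -/
noncomputable def sub (a : ι) (r : I) : Module.End ℂ (Ten ι I) where
  toFun u := fun x => u (update x a r)
  map_add' _ _ := rfl
  map_smul' _ _ := rfl

omit [Fintype ι] [Fintype I] [DecidableEq I] in
@[simp] lemma sub_apply (a : ι) (r : I) (u : Ten ι I) (x : ι → I) :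
    sub a r u x = u (update x a r) := rfl

lemma sub_eq_act (a : ι) (r : I) :
    (sub a r : Module.End ℂ (Ten ι I)) =
      act (ms a (Matrix.of fun _ s => if s = r then 1 else 0)) := by
  refine LinearMap.ext fun u => funext fun x => ?_
  rw [act_single]
  simp

lemma act_sub_comm (Z : ι → Matrix I I ℂ) (a : ι) (r : I) (hZ : Z a = 1) (u : Ten ι I) :
    act Z (sub a r u) = sub a r (act Z u) := by
  rw [sub_eq_act, ← Module.End.mul_apply, ← Module.End.mul_apply, ← act_mul, ← act_mul]
  congr 2
  funext k
  by_cases hk : k = a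
  · subst hk
    simp [hZ]
  · simp [ms_ne hk]

/-- Contraction of the positions `a`, `b` with `J`. -/
noncomputable def con (J : Matrix I I ℂ) (a b : ι) : Module.End ℂ (Ten ι I) where
  toFun u := fun x => ∑ r, ∑ s, J r s * u (update (update x a r) b s)
  map_add' u v := by
    funext x
    simp [mul_add, Finset.sum_add_distrib]
  map_smul' c u := by
    funext x
    simp only [Pi.smul_apply, smul_eq_mul, RingHom.id_apply, Finset.mul_sum]
    exact Finset.sum_congr rfl fun r _ => Finset.sum_congr rfl fun s _ => by ring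

omit [Fintype ι] [DecidableEq I] in
lemma con_apply (J : Matrix I I ℂ) (a b : ι) (u : Ten ι I) (x : ι → I) :
    con J a b u x = ∑ r, ∑ s, J r s * u (update (update x a r) b s) := rfl

omit [Fintype ι] [DecidableEq I] in
lemma con_eq_sub (J : Matrix I I ℂ) (a b : ι) (u : Ten ι I) :
    con J a b u = ∑ r, ∑ s, J r s • sub a r (sub b s u) := by
  funext x
  simp [con_apply, Finset.sum_apply]

lemma act_con_comm (Z : ι → Matrix I I ℂ) (J : Matrix I I ℂ) (a b : ι) (ha : Z a = 1)
    (hb : Z b = 1) (u : Ten ι I) : act Z (con J a b u) = con J a b (act Z u) := by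
  rw [con_eq_sub, con_eq_sub]
  simp only [map_sum, map_smul]
  refine Finset.sum_congr rfl fun r _ => Finset.sum_congr rfl fun s _ => ?_
  rw [act_sub_comm Z a r ha, act_sub_comm Z b s hb]

/-- Multiplication by the value of `J` at the positions `a`, `b`. -/
noncomputable def ins (J : Matrix I I ℂ) (a b : ι) : Module.End ℂ (Ten ι I) where
  toFun u := fun x => J (x a) (x b) * u x
  map_add' u v := by
    funext x
    simp [mul_add]
  map_smul' c u := by
    funext x
    simp only [Pi.smul_apply, smul_eq_mul, RingHom.id_apply]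
    ring

omit [Fintype ι] [DecidableEq ι] [Fintype I] [DecidableEq I] in
lemma ins_apply (J : Matrix I I ℂ) (a b : ι) (u : Ten ι I) (x : ι → I) :
    ins J a b u x = J (x a) (x b) * u x := rfl

lemma act_ins_comm (Z : ι → Matrix I I ℂ) (J : Matrix I I ℂ) (a b : ι) (ha : Z a = 1)
    (hb : Z b = 1) (u : Ten ι I) : act Z (ins J a b u) = ins J a b (act Z u) := by
  funext x
  rw [act_apply, ins_apply, act_apply, Finset.mul_sum]
  refine Finset.sum_congr rfl fun y _ => ?_
  rw [ins_apply]
  by_cases h1 : y a = x a
  · by_cases h2 : y b = x b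
    · rw [h1, h2]; ring
    · rw [Finset.prod_eq_zero (Finset.mem_univ b)]
      · ring
      · rw [hb]; exact Matrix.one_apply_ne (Ne.symm h2)
  · rw [Finset.prod_eq_zero (Finset.mem_univ a)]
    · ring
    · rw [ha]; exact Matrix.one_apply_ne (Ne.symm h1)

lemma rho_split (R : Finset ι) (X : Matrix I I ℂ) {a b : ι} (ha : a ∈ R) (hb : b ∈ R)
    (hab : a ≠ b) : rho R X = rho (R \ {a, b}) X *
      (act (ms a X) * act (ms b X)) := by
  unfold rho
  rw [← act_mul, ← act_mul]
  congr 1
  funext k
  by_cases hka : k = a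
  · subst hka
    simp [ha, hab, ms]
  · by_cases hkb : k = b
    · subst hkb
      simp [hb, hka, ms]
    · simp [hka, hkb, ms]

lemma rho_split' (R : Finset ι) (X : Matrix I I ℂ) {a b : ι} (ha : a ∈ R) (hb : b ∈ R)
    (hab : a ≠ b) : rho R X =
      (act (ms a X) * act (ms b X)) * rho (R \ {a, b}) X := by
  unfold rho
  rw [← act_mul, ← act_mul]
  congr 1
  funext k
  by_cases hka : k = a
  · subst hka
    simp [ha, hab, ms]
  · by_cases hkb : k = b
    · subst hkb
      simp [hb, hka, ms]
    · simp [hka, hkb, ms]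

lemma pair_apply {a b : ι} (hab : a ≠ b) (X Y : Matrix I I ℂ) (u : Ten ι I) (x : ι → I) :
    (act (ms a X) * act (ms b Y)) u x =
      ∑ r, ∑ s, X (x a) r * Y (x b) s * u (update (update x a r) b s) := by
  rw [Module.End.mul_apply, act_single]
  refine Finset.sum_congr rfl fun r _ => ?_
  rw [act_single, Finset.mul_sum]
  refine Finset.sum_congr rfl fun s _ => ?_
  rw [update_of_ne (Ne.symm hab)]
  ring

/-- The contraction is equivariant. -/
lemma con_rho (R : Finset ι) (J X : Matrix I I ℂ) {c : ℂ} (hX : X.transpose * J * X = c • J)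
    {a b : ι} (ha : a ∈ R) (hb : b ∈ R) (hab : a ≠ b) (u : Ten ι I) :
    con J a b (rho R X u) = c • rho (R \ {a, b}) X (con J a b u) := by
  rw [rho_split' R X ha hb hab, Module.End.mul_apply]
  have h1 : rho (R \ {a, b}) X (con J a b u) = con J a b (rho (R \ {a, b}) X u) :=
    act_con_comm _ J a b (by simp) (by simp) u
  rw [h1]
  set v := rho (R \ {a, b}) X u
  funext x
  rw [con_apply, Pi.smul_apply, con_apply]
  simp only [pair_apply hab, update_self, update_of_ne hab, smul_eq_mul]
  have h2 : ∀ r s : I, ∀ r' s' : I,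
      update (update (update (update x a r) b s) a r') b s' = update (update x a r') b s' := by
    intro r s r' s'
    rw [update_comm (Ne.symm hab) s r' (update x a r), update_idem, update_idem]
  simp only [h2, Finset.mul_sum]
  have h3 : ∀ r' s' : I, c * J r' s' = ∑ r, ∑ s, X r r' * J r s * X s s' := by
    intro r' s'
    have := congrFun (congrFun hX r') s'
    rw [Matrix.smul_apply, smul_eq_mul] at this
    rw [← this, Matrix.mul_apply]
    simp only [Matrix.mul_apply, Matrix.transpose_apply, Finset.sum_mul]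
    rw [Finset.sum_comm]
  calc ∑ r, ∑ s, ∑ r', ∑ s', J r s * (X r r' * X s s' * v (update (update x a r') b s'))
      = ∑ r', ∑ s', ∑ r, ∑ s, J r s * (X r r' * X s s' * v (update (update x a r') b s')) := by
        rw [Finset.sum_congr rfl fun r _ => Finset.sum_comm]
        rw [Finset.sum_comm]
        refine Finset.sum_congr rfl fun r' _ => ?_
        rw [Finset.sum_congr rfl fun r _ => Finset.sum_comm]
        rw [Finset.sum_comm]
    _ = ∑ r', ∑ s', c * (J r' s' * v (update (update x a r') b s')) := by
        refine Finset.sum_congr rfl fun r' _ => Finset.sum_congr rfl fun s' _ => ?_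
        rw [← mul_assoc, h3 r' s', Finset.sum_mul]
        refine Finset.sum_congr rfl fun r _ => ?_
        rw [Finset.sum_mul]
        exact Finset.sum_congr rfl fun s _ => by ring

/-- Tensors which depend only on the positions in `R`. -/
def dep (R : Finset ι) : Submodule ℂ (Ten ι I) where
  carrier := {u | ∀ a, a ∉ R → ∀ x r, u (update x a r) = u x}
  add_mem' := by
    intro u v hu hv a ha x r
    simp only [Pi.add_apply, hu a ha, hv a ha]
  zero_mem' := by intro a _ x r; rfl
  smul_mem' := by
    intro c u hu a ha x r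
    simp only [Pi.smul_apply, hu a ha]

omit [Fintype ι] [Fintype I] [DecidableEq I] in
lemma mem_dep {R : Finset ι} {u : Ten ι I} :
    u ∈ dep R ↔ ∀ a, a ∉ R → ∀ x r, u (update x a r) = u x := Iff.rfl

lemma rho_dep {R : Finset ι} (X : Matrix I I ℂ) {u : Ten ι I} (hu : u ∈ dep R) :
    rho R X u ∈ dep R := by
  intro a ha x r
  have h1 : sub a r u = u := by
    funext y
    exact hu a ha y r
  have h2 := act_sub_comm (fun k => if k ∈ R then X else 1) a r (by simp [ha]) u
  rw [h1] at h2
  exact (congrFun h2 x).symm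

omit [Fintype ι] [DecidableEq I] in
lemma con_dep {R : Finset ι} (J : Matrix I I ℂ) {a b : ι} (hab : a ≠ b) {u : Ten ι I}
    (hu : u ∈ dep R) : con J a b u ∈ dep (R \ {a, b}) := by
  intro c hc x t
  rw [con_apply, con_apply]
  refine Finset.sum_congr rfl fun r _ => Finset.sum_congr rfl fun s _ => ?_
  congr 1
  by_cases hca : c = a
  · subst hca
    rw [update_idem]
  · by_cases hcb : c = b
    · subst hcb
      rw [update_comm hca t r x, update_idem]
    · have hcR : c ∉ R := by
        intro h
        exact hc (by simp [h, hca, hcb])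
      rw [update_comm hca t r x, update_comm (β := fun _ => I) hcb t s (update x a r)]
      exact hu c hcR _ _

omit [Fintype ι] [Fintype I] [DecidableEq I] in
lemma ins_dep {R : Finset ι} (J : Matrix I I ℂ) {a b : ι} (ha : a ∈ R) (hb : b ∈ R)
    {u : Ten ι I} (hu : u ∈ dep (R \ {a, b})) : ins J a b u ∈ dep R := by
  intro c hc x t
  rw [ins_apply, ins_apply]
  have h1 : c ≠ a := by rintro rfl; exact hc ha
  have h2 : c ≠ b := by rintro rfl; exact hc hb
  rw [update_of_ne (Ne.symm h1), update_of_ne (Ne.symm h2)]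
  rw [hu c (by simp [hc]) x t]

/-- The insertion is equivariant. -/
lemma rho_ins (R : Finset ι) (J X : Matrix I I ℂ) {c : ℂ} (hX : X * J * X.transpose = c • J)
    {a b : ι} (ha : a ∈ R) (hb : b ∈ R) (hab : a ≠ b) {v : Ten ι I}
    (hv : v ∈ dep (R \ {a, b})) :
    rho R X (ins J a b v) = c • ins J a b (rho (R \ {a, b}) X v) := by
  rw [rho_split R X ha hb hab, Module.End.mul_apply]
  have h1 : (act (ms a X) * act (ms b X)) (ins J a b v) =
      c • ins J a b v := by
    funext x
    rw [pair_apply hab, Pi.smul_apply, ins_apply]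
    have h2 : ∀ r s, ins J a b v (update (update x a r) b s) = J r s * v x := by
      intro r s
      rw [ins_apply, update_self, update_of_ne hab, update_self,
        hv b (by simp), hv a (by simp)]
    simp only [h2]
    have h3 := congrFun (congrFun hX (x a)) (x b)
    rw [Matrix.smul_apply, smul_eq_mul, Matrix.mul_apply] at h3
    simp only [Matrix.mul_apply, Matrix.transpose_apply, Finset.sum_mul] at h3
    rw [smul_eq_mul, ← mul_assoc, ← h3, Finset.sum_mul, Finset.sum_comm]
    refine Finset.sum_congr rfl fun s _ => ?_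
    rw [Finset.sum_mul]
    exact Finset.sum_congr rfl fun r _ => by ring
  rw [h1, map_smul]
  congr 1
  exact act_ins_comm _ J a b (by simp) (by simp) v

/-! ### Hermitian orthogonality -/

/-- The standard Hermitian form. -/
noncomputable def herm (u v : Ten ι I) : ℂ := ∑ x, star (u x) * v x

omit [DecidableEq I] in
lemma herm_self_eq_zero {u : Ten ι I} (h : herm u u = 0) : u = 0 := by
  unfold herm at h
  have h1 : ∑ x, (‖u x‖ ^ 2 : ℝ) = 0 := by
    have h2 : ((∑ x, (‖u x‖ ^ 2 : ℝ) : ℝ) : ℂ) = 0 := by
      rw [← h]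
      push_cast
      refine Finset.sum_congr rfl fun x _ => ?_
      exact (Complex.conj_mul' (u x)).symm
    exact_mod_cast h2
  funext x
  have h3 := (Finset.sum_eq_zero_iff_of_nonneg (fun x _ => by positivity)).1 h1 x
    (Finset.mem_univ x)
  simpa using h3

omit [DecidableEq I] in
lemma herm_act (Z : ι → Matrix I I ℂ) (u v : Ten ι I) :
    herm u (act Z v) = herm (act (fun k => (Z k).conjTranspose) u) v := by
  unfold herm
  simp only [act_apply, star_sum, Finset.sum_mul, Finset.mul_sum]
  rw [Finset.sum_comm]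
  refine Finset.sum_congr rfl fun y _ => Finset.sum_congr rfl fun x _ => ?_
  rw [star_mul', star_prod]
  simp only [Matrix.conjTranspose_apply, star_star]
  ring

lemma herm_rho (R : Finset ι) (X : Matrix I I ℂ) (u v : Ten ι I) :
    herm u (rho R X v) = herm (rho R X.conjTranspose u) v := by
  unfold rho
  rw [herm_act]
  congr 3
  funext k
  by_cases hk : k ∈ R <;> simp [hk]

/-- The orthogonal complement. -/
noncomputable def perp (N : Submodule ℂ (Ten ι I)) : Submodule ℂ (Ten ι I) where
  carrier := {v | ∀ n ∈ N, herm n v = 0}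
  add_mem' := by
    intro u v hu hv n hn
    have h1 := hu n hn
    have h2 := hv n hn
    unfold herm at *
    simp only [Pi.add_apply, mul_add, Finset.sum_add_distrib, h1, h2, add_zero]
  zero_mem' := by
    intro n _
    simp [herm]
  smul_mem' := by
    intro c u hu n hn
    have h1 := hu n hn
    unfold herm at *
    simp only [Pi.smul_apply, smul_eq_mul]
    rw [show ∑ x, star (n x) * (c * u x) = c * ∑ x, star (n x) * u x by
      rw [Finset.mul_sum]; exact Finset.sum_congr rfl fun x _ => by ring]
    rw [h1, mul_zero]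

omit [DecidableEq I] in
lemma mem_perp {N : Submodule ℂ (Ten ι I)} {v : Ten ι I} :
    v ∈ perp N ↔ ∀ n ∈ N, herm n v = 0 := Iff.rfl

omit [DecidableEq I] in
lemma eq_zero_of_mem_perp {N : Submodule ℂ (Ten ι I)} {v : Ten ι I} (h1 : v ∈ N)
    (h2 : v ∈ perp N) : v = 0 := herm_self_eq_zero (h2 v h1)

omit [DecidableEq I] in
lemma exists_decomp (N : Submodule ℂ (Ten ι I)) (u : Ten ι I) :
    ∃ n ∈ N, u - n ∈ perp N := by
  let e := WithLp.linearEquiv 2 ℂ (Ten ι I)
  let N' : Submodule ℂ (EuclideanSpace ℂ (ι → I)) := N.comap e.toLinearMap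
  refine ⟨e (N'.starProjection (e.symm u)), ?_, ?_⟩
  · have := Submodule.starProjection_apply_mem N' (e.symm u)
    exact this
  · intro n hn
    have h1 : e.symm n ∈ N' := by
      change e (e.symm n) ∈ N
      simpa using hn
    have h2 := Submodule.sub_starProjection_mem_orthogonal (K := N') (e.symm u)
    have h3 := h2 (e.symm n) h1
    rw [EuclideanSpace.inner_eq_star_dotProduct] at h3
    unfold herm
    rw [← h3]
    simp only [dotProduct]
    refine Finset.sum_congr rfl fun x _ => ?_
    rw [mul_comm]
    rfl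

/-! ### Averaging -/

omit [DecidableEq I] in
lemma avg1 {M : Type} [AddCommMonoid M] (a : ι) (G : (ι → I) → M) :
    ∑ x, ∑ r, G (update x a r) = Fintype.card I • ∑ x, G x := by
  have h1 : ∑ x : ι → I, ∑ r : I, G (update x a r) = ∑ z : (ι → I) × I, G (update z.1 a z.2) := by
    rw [Fintype.sum_prod_type]
  have h2 : ∑ z : (ι → I) × I, G (update z.1 a z.2) = ∑ z : (ι → I) × I, G z.1 := by
    let e : (ι → I) × I ≃ (ι → I) × I :=
      { toFun := fun z => (update z.1 a z.2, z.1 a)
        invFun := fun z => (update z.1 a z.2, z.1 a)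
        left_inv := by
          intro z
          simp
        right_inv := by
          intro z
          simp }
    exact Fintype.sum_equiv e _ _ (fun z => rfl)
  rw [h1, h2, Fintype.sum_prod_type]
  simp only [Finset.sum_const, Finset.card_univ]
  rw [Finset.smul_sum]

omit [DecidableEq I] in
lemma avg2 {M : Type} [AddCommMonoid M] (a b : ι) (G : (ι → I) → M) :
    ∑ x, ∑ r, ∑ s, G (update (update x a r) b s) =
      (Fintype.card I * Fintype.card I) • ∑ x, G x := by
  have h1 := avg1 a (fun x : ι → I => ∑ s, G (update x b s))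
  rw [h1, avg1 b G, smul_smul]

omit [DecidableEq I] in
lemma herm_con (J : Matrix I I ℂ) (hJ : ∀ r s, star (J r s) = J r s) {a b : ι} (hab : a ≠ b)
    {n : Ten ι I} (ha : ∀ x r, n (update x a r) = n x) (hb : ∀ x r, n (update x b r) = n x)
    (v : Ten ι I) :
    herm n (con J a b v) =
      ((Fintype.card I * Fintype.card I : ℕ) : ℂ) * herm (ins J a b n) v := by
  unfold herm
  rw [← nsmul_eq_mul, ← avg2 a b]
  refine Finset.sum_congr rfl fun x _ => ?_
  rw [con_apply, Finset.mul_sum]
  refine Finset.sum_congr rfl fun r _ => ?_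
  rw [Finset.mul_sum]
  refine Finset.sum_congr rfl fun s _ => ?_
  rw [ins_apply, update_self, update_of_ne hab, update_self, hb, ha, star_mul', hJ]
  ring

/-! ### The insertion filtration -/

/-- The span of all `ν`-fold insertions of the forms `J c`. -/
noncomputable def Nv {κ : Type} (J : κ → Matrix I I ℂ) : ℕ → Finset ι → Submodule ℂ (Ten ι I)
  | 0, R => dep R
  | ν + 1, R => Submodule.span ℂ {z | ∃ c, ∃ a ∈ R, ∃ b ∈ R, a ≠ b ∧
      ∃ v ∈ Nv J ν (R \ {a, b}), z = ins (J c) a b v}

omit [Fintype ι] [Fintype I] [DecidableEq I] in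
lemma Nv_le_dep {κ : Type} (J : κ → Matrix I I ℂ) (ν : ℕ) (R : Finset ι) :
    Nv J ν R ≤ dep R := by
  induction ν generalizing R with
  | zero => exact le_rfl
  | succ ν ih =>
    refine Submodule.span_le.2 ?_
    rintro z ⟨c, a, ha, b, hb, hab, v, hv, rfl⟩
    exact ins_dep (J c) ha hb (ih _ hv)

lemma rho_Nv {κ : Type} (J : κ → Matrix I I ℂ) (X : Matrix I I ℂ) {m : ℂ}
    (hX : ∀ c, X * J c * X.transpose = m • J c) (ν : ℕ)
    (R : Finset ι) {u : Ten ι I} (hu : u ∈ Nv J ν R) : rho R X u ∈ Nv J ν R := by
  induction ν generalizing R u with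
  | zero => exact rho_dep X hu
  | succ ν ih =>
    have h1 : Nv J (ν + 1) R ≤ (Nv J (ν + 1) R).comap (rho R X) := by
      conv_lhs => unfold Nv
      refine Submodule.span_le.2 ?_
      rintro z ⟨c, a, ha, b, hb, hab, v, hv, rfl⟩
      change rho R X (ins (J c) a b v) ∈ Nv J (ν + 1) R
      rw [rho_ins R (J c) X (hX c) ha hb hab (Nv_le_dep J ν _ hv)]
      refine Submodule.smul_mem _ _ (Submodule.subset_span ?_)
      exact ⟨c, a, ha, b, hb, hab, _, ih _ hv, rfl⟩
    exact h1 hu

end Basic

end Pool.Agent.Helper48.GC8
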