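import Pool.Agent.Helper48.GC8.Tensor

/-!
# Traceless tensors have highest weight vectors in the tensor power of a Lagrangian
-/

set_option autoImplicit false

namespace Pool.Agent.Helper48.GC8

open Function
open scoped ComplexOrder

section Weyl

variable {ι : Type} [Fintype ι] [DecidableEq ι] {I : Type} [Fintype I] [DecidableEq I]

/-- The derivation attached to a matrix. -/
noncomputable def der (R : Finset ι) (X : Matrix I I ℂ) : Module.End ℂ (Ten ι I) :=
  ∑ k ∈ R, act (ms k X)

lemma der_apply (R : Finset ι) (X : Matrix I I ℂ) (u : Ten ι I) (x : ι → I) :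
    der R X u x = ∑ k ∈ R, ∑ r, X (x k) r * u (update x k r) := by
  unfold der
  rw [LinearMap.sum_apply, Finset.sum_apply]
  exact Finset.sum_congr rfl fun k _ => act_single k X u x

lemma hasDerivAt_rho (R : Finset ι) (X : Matrix I I ℂ) (u : Ten ι I) :
    HasDerivAt (fun t : ℂ => rho R (1 + t • X) u) (der R X u) 0 := by
  rw [hasDerivAt_pi]
  intro x
  have h1 : ∀ y : ι → I, HasDerivAt
      (fun t : ℂ => (∏ k, (if k ∈ R then (1 + t • X) else 1 : Matrix I I ℂ) (x k) (y k)) * u y)
      ((∑ k, (∏ l ∈ Finset.univ.erase k, (1 : Matrix I I ℂ) (x l) (y l)) •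
        (if k ∈ R then X (x k) (y k) else 0)) * u y) 0 := by
    intro y
    refine HasDerivAt.mul_const ?_ _
    have h2 : ∀ k ∈ (Finset.univ : Finset ι), HasDerivAt
        (fun t : ℂ => (if k ∈ R then (1 + t • X) else 1 : Matrix I I ℂ) (x k) (y k))
        (if k ∈ R then X (x k) (y k) else 0) 0 := by
      intro k _
      by_cases hk : k ∈ R
      · simp only [hk, if_true, Matrix.add_apply, Matrix.smul_apply, smul_eq_mul]
        have h3 := ((hasDerivAt_id (0 : ℂ)).mul_const (X (x k) (y k))).const_add
          ((1 : Matrix I I ℂ) (x k) (y k))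
        simpa using h3
      · simp only [hk, if_false]
        exact hasDerivAt_const _ _
    have h4 := HasDerivAt.fun_finsetProd h2
    convert h4 using 1
    refine Finset.sum_congr rfl fun k _ => ?_
    congr 1
    refine Finset.prod_congr rfl fun l _ => ?_
    by_cases hl : l ∈ R <;> simp [hl]
  have h5 := HasDerivAt.fun_sum (u := (Finset.univ : Finset (ι → I))) (fun y _ => h1 y)
  have h6 : (∑ y : ι → I, (∑ k, (∏ l ∈ Finset.univ.erase k, (1 : Matrix I I ℂ) (x l) (y l)) •
        (if k ∈ R then X (x k) (y k) else 0)) * u y) = der R X u x := by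
    unfold der
    rw [LinearMap.sum_apply, Finset.sum_apply]
    simp only [Finset.sum_mul]
    rw [Finset.sum_comm]
    have h7 : ∀ k ∈ (Finset.univ : Finset ι), k ∉ R → (∑ y : ι → I,
        (∏ l ∈ Finset.univ.erase k, (1 : Matrix I I ℂ) (x l) (y l)) •
        (if k ∈ R then X (x k) (y k) else 0) * u y) = 0 := by
      intro k _ hk
      simp [hk]
    rw [← Finset.sum_subset (Finset.subset_univ R) h7]
    refine Finset.sum_congr rfl fun k hk => ?_
    rw [act_apply]
    refine Finset.sum_congr rfl fun y _ => ?_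
    congr 1
    rw [← Finset.mul_prod_erase Finset.univ _ (Finset.mem_univ k), ms_self]
    simp only [hk, if_true, smul_eq_mul]
    rw [mul_comm]
    congr 1
    refine Finset.prod_congr rfl fun l hl => ?_
    rw [ms_ne (Finset.ne_of_mem_erase hl)]
  rw [h6] at h5
  exact h5

lemma der_mem (R : Finset ι) (X : Matrix I I ℂ) (U : Submodule ℂ (Ten ι I))
    (hU : ∀ t : ℂ, ∀ u ∈ U, rho R (1 + t • X) u ∈ U) {u : Ten ι I} (hu : u ∈ U) :
    der R X u ∈ U := by
  by_contra hcon
  obtain ⟨f, hf, hfU⟩ := Submodule.exists_dual_map_eq_bot_of_notMem hcon inferInstance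
  have h1 := (LinearMap.toContinuousLinearMap f).hasFDerivAt.comp_hasDerivAt (0 : ℂ)
    (hasDerivAt_rho R X u)
  have h2 : (LinearMap.toContinuousLinearMap f) ∘ (fun t : ℂ => rho R (1 + t • X) u) =
      fun _ => 0 := by
    funext t
    have h3 : f (rho R (1 + t • X) u) ∈ U.map f := Submodule.mem_map_of_mem (hU t u hu)
    rw [hfU] at h3
    simpa using h3
  rw [h2] at h1
  exact hf (h1.unique (hasDerivAt_const _ _))

end Weyl

section Pos

variable {ι : Type} [Fintype ι] [DecidableEq ι] {g : ℕ} {κ : Type} [Fintype κ] [DecidableEq κ]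

/-- The letters. -/
abbrev L2 (g : ℕ) : Type := Fin g ⊕ Fin g

/-- The symplectic form of the block with color `c`. -/
noncomputable def JB (col : Fin g → κ) (c : κ) : Matrix (L2 g) (L2 g) ℂ :=
  Matrix.fromBlocks 0 (-Matrix.diagonal fun i => if col i = c then 1 else 0)
    (Matrix.diagonal fun i => if col i = c then 1 else 0) 0

/-- `f_k ↦ e_i` as a derivation. -/
noncomputable def low (R : Finset ι) (u : Ten ι (L2 g)) (i k : Fin g) (x : ι → L2 g) : ℂ :=
  ∑ a ∈ R, if x a = Sum.inl i then u (update x a (Sum.inr k)) else 0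

lemma sum_sum_ite (H : Fin g → Fin g → ℂ) :
    ∑ r : L2 g, ∑ s : L2 g, ∑ i : Fin g, ∑ k : Fin g,
      (if r = Sum.inl i then (if s = Sum.inl k then H i k else 0) else 0) =
      ∑ i, ∑ k, H i k := by
  simp only [Fintype.sum_sum_type, Sum.inl.injEq, reduceCtorEq, if_false,
    Finset.sum_const_zero, add_zero]
  refine Finset.sum_congr rfl fun r _ => ?_
  rw [Finset.sum_comm]
  have h1 : ∀ i : Fin g, ∑ s : Fin g, ∑ k : Fin g,
      (if r = i then (if s = k then H i k else 0) else 0) =
      if r = i then ∑ k, H i k else 0 := by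
    intro i
    by_cases hr : r = i
    · simp [hr]
    · simp [hr]
  simp only [h1]
  simp

omit [Fintype ι] [DecidableEq ι] in
lemma sum_five {X : Type} [Fintype X] (R : Finset ι) (F : X → Fin g → Fin g → ι → ι → ℂ) :
    ∑ x, ∑ i, ∑ k, ∑ a ∈ R, ∑ b ∈ R, F x i k a b =
      ∑ a ∈ R, ∑ b ∈ R, ∑ x, ∑ i, ∑ k, F x i k a b :=
  calc ∑ x, ∑ i, ∑ k, ∑ a ∈ R, ∑ b ∈ R, F x i k a b
      = ∑ x, ∑ i, ∑ a ∈ R, ∑ k, ∑ b ∈ R, F x i k a b :=
        Finset.sum_congr rfl fun _ _ => Finset.sum_congr rfl fun _ _ => Finset.sum_comm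
    _ = ∑ x, ∑ a ∈ R, ∑ i, ∑ k, ∑ b ∈ R, F x i k a b :=
        Finset.sum_congr rfl fun _ _ => Finset.sum_comm
    _ = ∑ a ∈ R, ∑ x, ∑ i, ∑ k, ∑ b ∈ R, F x i k a b := Finset.sum_comm
    _ = ∑ a ∈ R, ∑ x, ∑ i, ∑ b ∈ R, ∑ k, F x i k a b :=
        Finset.sum_congr rfl fun _ _ => Finset.sum_congr rfl fun _ _ =>
          Finset.sum_congr rfl fun _ _ => Finset.sum_comm
    _ = ∑ a ∈ R, ∑ x, ∑ b ∈ R, ∑ i, ∑ k, F x i k a b :=
        Finset.sum_congr rfl fun _ _ => Finset.sum_congr rfl fun _ _ => Finset.sum_comm
    _ = ∑ a ∈ R, ∑ b ∈ R, ∑ x, ∑ i, ∑ k, F x i k a b :=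
        Finset.sum_congr rfl fun _ _ => Finset.sum_comm

lemma sum_col (col : Fin g → κ) (p q : Fin g → ℂ) :
    ∑ i, ∑ k, (if col i = col k then star (p k) * q i else 0) =
      ∑ c, star (∑ k, if col k = c then p k else 0) * ∑ i, if col i = c then q i else 0 := by
  have h1 : ∀ c : κ, star (∑ k, if col k = c then p k else 0) *
      (∑ i, if col i = c then q i else 0) =
      ∑ i, ∑ k, if col i = c then (if col k = c then star (p k) * q i else 0) else 0 := by
    intro c
    rw [star_sum, Finset.sum_mul_sum, Finset.sum_comm]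
    refine Finset.sum_congr rfl fun i _ => Finset.sum_congr rfl fun k _ => ?_
    by_cases h1 : col i = c <;> by_cases h2 : col k = c <;> simp [h1, h2]
  simp only [h1]
  conv_rhs => rw [Finset.sum_comm]
  refine Finset.sum_congr rfl fun i _ => ?_
  conv_rhs => rw [Finset.sum_comm]
  refine Finset.sum_congr rfl fun k _ => ?_
  rw [Finset.sum_ite_eq]
  simp only [Finset.mem_univ, if_true]
  by_cases h : col i = col k
  · rw [if_pos h, if_pos h.symm]
  · rw [if_neg h, if_neg (Ne.symm h)]

/-- **Weyl's theorem for traceless tensors**: a traceless tensor killed by all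
`f_k ↦ e_i, f_i ↦ e_k` (`i`, `k` in the same block) is supported on words in the `e`'s. -/
lemma weyl (col : Fin g → κ) (R : Finset ι) (u : Ten ι (L2 g))
    (h1 : ∀ c, ∀ a ∈ R, ∀ b ∈ R, a ≠ b → con (JB col c) a b u = 0)
    (h2 : ∀ i k x, col i = col k → low R u i k x + low R u k i x = 0)
    (y : ι → L2 g) (hy : u y ≠ 0) (a : ι) (ha : a ∈ R) : ∃ i, y a = Sum.inl i := by
  let S : ι → ι → ℂ := fun a b => ∑ x, ∑ i, ∑ k, if col i = col k then
    star (if x a = Sum.inl i then u (update x a (Sum.inr k)) else 0) *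
      (if x b = Sum.inl k then u (update x b (Sum.inr i)) else 0) else 0
  have hSne : ∀ a ∈ R, ∀ b ∈ R, a ≠ b → 0 ≤ S a b := by
    intro a ha b hb hab
    have hN : (0 : ℂ) ≤ ((Fintype.card (L2 g) * Fintype.card (L2 g) : ℕ) : ℂ) * S a b := by
      rw [← nsmul_eq_mul]
      simp only [S]
      rw [← avg2 a b]
      refine Finset.sum_nonneg fun x _ => ?_
      have h3 : ∀ c, ∑ k, (if col k = c then
            u (update (update x a (Sum.inr k)) b (Sum.inl k)) else 0) =
          ∑ i, (if col i = c then u (update (update x a (Sum.inl i)) b (Sum.inr i)) else 0) := by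
        intro c
        have h4 := congrFun (h1 c a ha b hb hab) x
        rw [con_apply] at h4
        simp only [JB, Fintype.sum_sum_type, Matrix.fromBlocks_apply₁₁,
          Matrix.fromBlocks_apply₁₂, Matrix.fromBlocks_apply₂₁, Matrix.fromBlocks_apply₂₂,
          Matrix.zero_apply, zero_mul, Finset.sum_const_zero, Matrix.neg_apply,
          Matrix.diagonal_apply, Pi.zero_apply, zero_add, add_zero] at h4
        simp only [neg_mul, ite_mul, one_mul, zero_mul, Finset.sum_neg_distrib,
          Finset.sum_ite_eq, Finset.mem_univ, if_true] at h4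
        linear_combination h4
      have h5 : ∀ r s : L2 g, ∑ i, ∑ k, (if col i = col k then
          star (if update (update x a r) b s a = Sum.inl i then
            u (update (update (update x a r) b s) a (Sum.inr k)) else 0) *
          (if update (update x a r) b s b = Sum.inl k then
            u (update (update (update x a r) b s) b (Sum.inr i)) else 0) else 0) =
          ∑ i, ∑ k, (if r = Sum.inl i then (if s = Sum.inl k then (if col i = col k then
            star (u (update (update x a (Sum.inr k)) b (Sum.inl k))) *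
              u (update (update x a (Sum.inl i)) b (Sum.inr i)) else 0) else 0) else 0) := by
        intro r s
        refine Finset.sum_congr rfl fun i _ => Finset.sum_congr rfl fun k _ => ?_
        rw [update_self, update_of_ne hab, update_self]
        by_cases hc : col i = col k
        · rw [if_pos hc]
          by_cases hr : r = Sum.inl i
          · by_cases hs : s = Sum.inl k
            · rw [if_pos hr, if_pos hs, if_pos hr, if_pos hs, if_pos hc, hr, hs]
              rw [update_comm hab.symm (Sum.inl k) (Sum.inr k) (update x a (Sum.inl i)),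
                update_idem, update_idem]
            · simp [hs]
          · simp [hr]
        · simp [hc]
      simp only [h5]
      rw [sum_sum_ite, sum_col]
      refine Finset.sum_nonneg fun c _ => ?_
      rw [h3 c]
      exact star_mul_self_nonneg _
    have hg : 0 < Fintype.card (L2 g) := Fintype.card_pos_iff.2 ⟨y a⟩
    set n : ℕ := Fintype.card (L2 g) * Fintype.card (L2 g) with hn
    have hn0 : (n : ℂ) ≠ 0 := by
      have : 0 < n := Nat.mul_pos hg hg
      exact_mod_cast this.ne'
    have hc : (0 : ℂ) ≤ (((n : ℝ)⁻¹ : ℝ) : ℂ) := by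
      exact_mod_cast (inv_nonneg.2 (Nat.cast_nonneg n))
    have h7 := mul_nonneg hc hN
    have h8 : (((n : ℝ)⁻¹ : ℝ) : ℂ) * ((n : ℂ) * S a b) = S a b := by
      push_cast
      field_simp
    rwa [h8] at h7
  have hSeq : ∀ a, S a a = ∑ x, ∑ i, if x a = Sum.inl i then
      star (u (update x a (Sum.inr i))) * u (update x a (Sum.inr i)) else 0 := by
    intro a
    refine Finset.sum_congr rfl fun x _ => Finset.sum_congr rfl fun i _ => ?_
    rw [Finset.sum_eq_single i]
    · by_cases h : x a = Sum.inl i <;> simp [h]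
    · intro k _ hk
      by_cases h : x a = Sum.inl i
      · have h' : x a ≠ Sum.inl k := by
          rw [h]
          intro h''
          exact hk (Sum.inl.inj h'').symm
        simp [h']
      · simp [h]
    · simp
  have hterm : ∀ a (x : ι → L2 g) (i : Fin g), (0 : ℂ) ≤ if x a = Sum.inl i then
      star (u (update x a (Sum.inr i))) * u (update x a (Sum.inr i)) else 0 := by
    intro a x i
    split_ifs
    · exact star_mul_self_nonneg _
    · exact le_rfl
  have hSaa : ∀ a, 0 ≤ S a a := by
    intro a
    rw [hSeq]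
    exact Finset.sum_nonneg fun x _ => Finset.sum_nonneg fun i _ => hterm a x i
  have hS : ∀ a ∈ R, ∀ b ∈ R, 0 ≤ S a b := by
    intro a ha b hb
    by_cases hab : a = b
    · rw [← hab]; exact hSaa a
    · exact hSne a ha b hb hab
  have htot : ∑ a ∈ R, ∑ b ∈ R, S a b = - ∑ x, ∑ i, ∑ k, if col i = col k then
      star (low R u i k x) * low R u i k x else 0 := by
    have h3 : ∑ x, ∑ i, ∑ k, (if col i = col k then
        star (low R u i k x) * low R u k i x else 0) = ∑ a ∈ R, ∑ b ∈ R, S a b := by
      simp only [S]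
      rw [← sum_five R]
      refine Finset.sum_congr rfl fun x _ => Finset.sum_congr rfl fun i _ =>
        Finset.sum_congr rfl fun k _ => ?_
      by_cases hc : col i = col k
      · simp only [if_pos hc, low, star_sum, Finset.sum_mul_sum]
      · simp only [if_neg hc, Finset.sum_const_zero]
    rw [← h3, ← Finset.sum_neg_distrib]
    refine Finset.sum_congr rfl fun x _ => ?_
    rw [← Finset.sum_neg_distrib]
    refine Finset.sum_congr rfl fun i _ => ?_
    rw [← Finset.sum_neg_distrib]
    refine Finset.sum_congr rfl fun k _ => ?_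
    by_cases hc : col i = col k
    · rw [if_pos hc, if_pos hc]
      have h4 := h2 i k x hc
      have h5 : low R u k i x = - low R u i k x := by linear_combination h4
      rw [h5]; ring
    · rw [if_neg hc, if_neg hc, neg_zero]
  have hneg : ∑ a ∈ R, ∑ b ∈ R, S a b ≤ 0 := by
    rw [htot, neg_nonpos]
    refine Finset.sum_nonneg fun x _ => Finset.sum_nonneg fun i _ =>
      Finset.sum_nonneg fun k _ => ?_
    split_ifs
    · exact star_mul_self_nonneg _
    · exact le_rfl
  have hz : ∑ a ∈ R, ∑ b ∈ R, S a b = 0 :=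
    le_antisymm hneg (Finset.sum_nonneg fun a ha => Finset.sum_nonneg fun b hb => hS a ha b hb)
  have h3 := (Finset.sum_eq_zero_iff_of_nonneg (fun a ha =>
    Finset.sum_nonneg fun b hb => hS a ha b hb)).1 hz a ha
  have h4 := (Finset.sum_eq_zero_iff_of_nonneg (fun b hb => hS a ha b hb)).1 h3 a ha
  rw [hSeq] at h4
  by_contra hcon
  push Not at hcon
  obtain ⟨k, hk⟩ : ∃ k, y a = Sum.inr k := by
    rcases h : y a with i | k
    · exact absurd h (hcon i)
    · exact ⟨k, rfl⟩
  have h5 := (Finset.sum_eq_zero_iff_of_nonneg (fun x _ =>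
    Finset.sum_nonneg fun i _ => hterm a x i)).1 h4 (update y a (Sum.inl k)) (Finset.mem_univ _)
  have h6 := (Finset.sum_eq_zero_iff_of_nonneg (fun i _ =>
    hterm a (update y a (Sum.inl k)) i)).1 h5 k (Finset.mem_univ _)
  rw [update_self, if_pos rfl, update_idem, ← hk, update_eq_self] at h6
  rw [mul_eq_zero] at h6
  rcases h6 with h6 | h6
  · exact hy (star_eq_zero.1 h6)
  · exact hy h6

/-- A nonzero space of traceless tensors stable under `1 + (f_k ↦ e_i)` has a nonzero element
supported on words in the `e`'s. -/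
lemma exists_highest (col : Fin g → κ) (R : Finset ι) (U : Submodule ℂ (Ten ι (L2 g)))
    (hU : ∀ B : Matrix (Fin g) (Fin g) ℂ, B.transpose = B → (∀ i k, col i ≠ col k → B i k = 0) →
      ∀ u ∈ U, rho R (Matrix.fromBlocks 1 B 0 1) u ∈ U)
    (h1 : ∀ u ∈ U, ∀ c, ∀ a ∈ R, ∀ b ∈ R, a ≠ b → con (JB col c) a b u = 0)
    (hne : ∃ u ∈ U, u ≠ 0) :
    ∃ u ∈ U, ∃ x, u x ≠ 0 ∧ ∀ a ∈ R, ∃ i, x a = Sum.inl i := by
  classical
  let bb : (ι → L2 g) → ℕ := fun x => (R.filter (fun a => ∃ k, x a = Sum.inr k)).card
  have hex : ∃ m, ∃ u ∈ U, u ≠ 0 ∧ ∀ x, u x ≠ 0 → bb x ≤ m := by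
    obtain ⟨u, hu, hu0⟩ := hne
    exact ⟨R.card, u, hu, hu0, fun x _ => Finset.card_filter_le _ _⟩
  obtain ⟨u, hu, hu0, hum⟩ := Nat.find_spec hex
  set m := Nat.find hex with hm
  have hS : ∀ (B : Matrix (Fin g) (Fin g) ℂ), B.transpose = B →
      (∀ i k, col i ≠ col k → B i k = 0) → der R (Matrix.fromBlocks 0 B 0 0) u = 0 := by
    intro B hB hBc
    have h3 : der R (Matrix.fromBlocks 0 B 0 0) u ∈ U := by
      refine der_mem R _ U ?_ hu
      intro t v hv
      have h4 : (1 + t • Matrix.fromBlocks 0 B 0 0 : Matrix (L2 g) (L2 g) ℂ) =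
          Matrix.fromBlocks 1 (t • B) 0 1 := by
        rw [← Matrix.fromBlocks_one, Matrix.fromBlocks_smul, Matrix.fromBlocks_add]
        simp
      rw [h4]
      refine hU _ (by rw [Matrix.transpose_smul, hB]) (fun i k hik => ?_) v hv
      rw [Matrix.smul_apply, hBc i k hik, smul_zero]
    by_contra hcon
    have h4 : ∀ x, der R (Matrix.fromBlocks 0 B 0 0) u x ≠ 0 → bb x + 1 ≤ m := by
      intro x hx
      rw [der_apply] at hx
      obtain ⟨a, ha, h5⟩ := Finset.exists_ne_zero_of_sum_ne_zero hx
      obtain ⟨r, -, h6⟩ := Finset.exists_ne_zero_of_sum_ne_zero h5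
      have h7 : (Matrix.fromBlocks 0 B 0 0 : Matrix (L2 g) (L2 g) ℂ) (x a) r ≠ 0 :=
        left_ne_zero_of_mul h6
      have h8 : u (update x a r) ≠ 0 := right_ne_zero_of_mul h6
      refine le_trans ?_ (hum _ h8)
      rcases hxa : x a with i | k
      · rcases r with j | j
        · rw [hxa] at h7
          simp at h7
        · simp only [bb]
          have h9 : insert a (R.filter (fun a => ∃ k, x a = Sum.inr k)) ⊆
              R.filter (fun c => ∃ k, update x a (Sum.inr j) c = Sum.inr k) := by
            intro c hc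
            rw [Finset.mem_insert] at hc
            rcases hc with rfl | hc
            · simp [ha]
            · rw [Finset.mem_filter] at hc ⊢
              refine ⟨hc.1, ?_⟩
              by_cases hca : c = a
              · subst hca; simp
              · rw [update_of_ne hca]; exact hc.2
          have h10 : a ∉ R.filter (fun a => ∃ k, x a = Sum.inr k) := by
            simp [hxa]
          rw [← Finset.card_insert_of_notMem h10]
          exact Finset.card_le_card h9
      · rw [hxa] at h7
        rcases r with j | j <;> simp at h7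
    obtain ⟨x, hx⟩ : ∃ x, der R (Matrix.fromBlocks 0 B 0 0) u x ≠ 0 := by
      by_contra h5
      push Not at h5
      exact hcon (funext h5)
    have h5 := h4 x hx
    have h6 : ∃ u ∈ U, u ≠ 0 ∧ ∀ x, u x ≠ 0 → bb x ≤ m - 1 :=
      ⟨_, h3, hcon, fun x hx => by have := h4 x hx; omega⟩
    exact Nat.find_min hex (m := m - 1) (by omega) h6
  have hlow : ∀ i k x, col i = col k → low R u i k x + low R u k i x = 0 := by
    intro i k x hik
    have h3 := congrFun (hS (Matrix.single i k 1 + Matrix.single k i 1) (by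
      rw [Matrix.transpose_add, Matrix.transpose_single, Matrix.transpose_single, add_comm]) (by
      intro j l hjl
      rw [Matrix.add_apply, Matrix.single_apply, Matrix.single_apply, if_neg, if_neg, add_zero]
      · rintro ⟨rfl, rfl⟩; exact hjl hik.symm
      · rintro ⟨rfl, rfl⟩; exact hjl hik)) x
    rw [der_apply] at h3
    rw [Pi.zero_apply] at h3
    rw [← h3]
    unfold low
    rw [← Finset.sum_add_distrib]
    refine Finset.sum_congr rfl fun a _ => ?_
    rw [Fintype.sum_sum_type]
    rcases hxa : x a with j | j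
    · simp only [Matrix.fromBlocks_apply₁₁, Matrix.fromBlocks_apply₁₂, Matrix.zero_apply,
        zero_mul, Finset.sum_const_zero, zero_add, Matrix.add_apply, Matrix.single_apply,
        Sum.inl.injEq, add_mul]
      rw [Finset.sum_add_distrib]
      congr 1
      · rw [Finset.sum_eq_single k]
        · by_cases h : j = i
          · simp [h]
          · simp [h, Ne.symm h]
        · intro l _ hl
          simp [Ne.symm hl]
        · simp
      · rw [Finset.sum_eq_single i]
        · by_cases h : j = k
          · simp [h]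
          · simp [h, Ne.symm h]
        · intro l _ hl
          simp [Ne.symm hl]
        · simp
    · simp
  obtain ⟨x, hx⟩ : ∃ x, u x ≠ 0 := by
    by_contra h5
    push Not at h5
    exact hu0 (funext h5)
  exact ⟨u, hu, x, hx, fun a ha => weyl col R u (h1 u hu) hlow x hx a ha⟩

end Pos

end Pool.Agent.Helper48.GC8
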